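import Mathlib
import Pool.Agent.Q77.LU.Base
import Pool.Agent.Q77.LU.StmL

/-!
# Project LU: job AGM (exponential decay of almost minimal functions away from the torons)
-/

set_option autoImplicit false

namespace Pool.Agent.Q84.LU.AGM

open MeasureTheory Matrix Set Filter Topology
open scoped ContDiff Matrix.Norms.Frobenius
open Pool.Agent.Q77.LU

noncomputable section

set_option linter.unusedSectionVars false

variable {N n D l : ℕ} [NeZero l] {G : Subgroup (UU N)}

/-- Polarised density of the energy. -/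
def den2 (B : LieBasis G n) (g : ℝ) (F H : (Link D l → G) → ℝ) (U : Link D l → G) : ℝ :=
  g ^ 2 / 2 * (∑ e : Link D l, ∑ a : Fin n, dlink B e a F U * dlink B e a H U) +
    1 / g ^ 2 * (magnetic U * (F U * H U))

lemma cont_mag (B : LieBasis G n) : Continuous (fun U : Link D l → G => magnetic U) :=
  (smooth_magnetic B).continuous

lemma den2_cont (B : LieBasis G n) (g : ℝ) {F H : (Link D l → G) → ℝ} (hF : IsSmooth F)
    (hH : IsSmooth H) : Continuous (den2 B g F H) := by
  unfold den2
  apply Continuous.add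
  · apply continuous_const.mul
    refine continuous_finsetSum _ fun e _ => continuous_finsetSum _ fun a _ => ?_
    exact (hF.dlink B e a).continuous.mul (hH.dlink B e a).continuous
  · exact continuous_const.mul ((cont_mag B).mul (hF.continuous.mul hH.continuous))

lemma den2_self_nonneg (B : LieBasis G n) (g : ℝ) (F : (Link D l → G) → ℝ)
    (U : Link D l → G) : 0 ≤ den2 B g F F U := by
  unfold den2
  have h1 : 0 ≤ ∑ e : Link D l, ∑ a : Fin n, dlink B e a F U * dlink B e a F U :=
    Finset.sum_nonneg fun e _ => Finset.sum_nonneg fun a _ => mul_self_nonneg _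
  have h2 := magnetic_nonneg U
  have h3 := mul_self_nonneg (F U)
  positivity

section integral

variable [MeasurableSpace G] [BorelSpace G] (μ : Measure G) [IsProbabilityMeasure μ]
  [μ.IsHaarMeasure]

lemma energy_eq (hG : IsClosed (G : Set (UU N))) (B : LieBasis G n) (g : ℝ)
    {F : (Link D l → G) → ℝ} (hF : IsSmooth F) :
    energy B μ g F = ∫ U, den2 B g F F U ∂(Measure.pi fun _ : Link D l => μ) := by
  unfold energy den2
  have i1 : ∀ e a, Integrable (fun U : Link D l → G => dlink B e a F U * dlink B e a F U)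
      (Measure.pi fun _ : Link D l => μ) := fun e a =>
    integrable_links μ hG ((hF.dlink B e a).continuous.mul (hF.dlink B e a).continuous)
  have i2 : Integrable (fun U : Link D l → G => ∑ e : Link D l, ∑ a : Fin n,
      dlink B e a F U * dlink B e a F U) (Measure.pi fun _ : Link D l => μ) :=
    integrable_finsetSum _ fun e _ => integrable_finsetSum _ fun a _ => i1 e a
  have i3 : Integrable (fun U : Link D l → G => magnetic U * (F U * F U))
      (Measure.pi fun _ : Link D l => μ) :=
    integrable_links μ hG ((cont_mag B).mul (hF.continuous.mul hF.continuous))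
  rw [integral_add (i2.const_mul _) (i3.const_mul _), integral_const_mul, integral_const_mul,
    integral_finsetSum _ (fun e _ => integrable_finsetSum _ fun a _ => i1 e a)]
  congr 1
  · congr 1
    apply Finset.sum_congr rfl
    intro e _
    rw [integral_finsetSum _ (fun a _ => i1 e a)]
    apply Finset.sum_congr rfl
    intro a _
    simp only [sq]
  · simp only [sq]

lemma energy_nonneg (hG : IsClosed (G : Set (UU N))) (B : LieBasis G n) (g : ℝ)
    {F : (Link D l → G) → ℝ} (hF : IsSmooth F) : 0 ≤ energy B μ g F := by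
  rw [energy_eq μ hG B g hF]
  exact integral_nonneg fun U => den2_self_nonneg B g F U

lemma energy_cmul (B : LieBasis G n) (g c : ℝ)
    {F : (Link D l → G) → ℝ} (hF : IsSmooth F) :
    energy B μ g (fun U => c * F U) = c ^ 2 * energy B μ g F := by
  unfold energy
  have h1 : ∀ e a, ∫ U, (dlink B e a (fun U => c * F U) U) ^ 2
      ∂(Measure.pi fun _ : Link D l => μ) = c ^ 2 * ∫ U, (dlink B e a F U) ^ 2
      ∂(Measure.pi fun _ : Link D l => μ) := by
    intro e a
    rw [← integral_const_mul]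
    congr 1
    funext U
    rw [dlink_const_mul B c hF]
    ring
  have h2 : ∫ U, magnetic U * (c * F U) ^ 2 ∂(Measure.pi fun _ : Link D l => μ) =
      c ^ 2 * ∫ U, magnetic U * F U ^ 2 ∂(Measure.pi fun _ : Link D l => μ) := by
    rw [← integral_const_mul]
    congr 1
    funext U
    ring
  simp only [h1, h2]
  simp only [← Finset.mul_sum]
  ring

lemma glevel_set_nonneg (hG : IsClosed (G : Set (UU N))) (B : LieBasis G n) (g : ℝ) (E : ℝ)
    (hE : ∃ Ψ : Fin (0 + 1) → (Link D l → G) → ℝ,
    (∀ i, IsSmooth (Ψ i) ∧ GaugeInv (Ψ i)) ∧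
    (∀ i j, ∫ U, Ψ i U * Ψ j U ∂(Measure.pi fun _ : Link D l => μ) = if i = j then 1 else 0) ∧
    ∀ c : Fin (0 + 1) → ℝ, energy B μ g (fun U => ∑ i, c i * Ψ i U) ≤ E * ∑ i, c i ^ 2) :
    0 ≤ E := by
  obtain ⟨Ψ, h1, h2, h3⟩ := hE
  have h4 := h3 (fun _ => 1)
  have h5 : IsSmooth (fun U => ∑ i, (fun _ : Fin (0 + 1) => (1 : ℝ)) i * Ψ i U) :=
    IsSmooth.sum _ fun i _ => (IsSmooth.const 1).mul (h1 i).1
  have h6 := energy_nonneg μ hG B g h5
  have h7 : ∑ i, (fun _ : Fin (0 + 1) => (1 : ℝ)) i ^ 2 = 1 := by simp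
  rw [h7] at h4
  linarith

lemma glevel_nonneg (hG : IsClosed (G : Set (UU N))) (B : LieBasis G n) (g : ℝ) :
    0 ≤ glevel D l B μ g 0 := by
  unfold glevel
  apply Real.sInf_nonneg
  intro E hE
  exact glevel_set_nonneg μ hG B g E hE

lemma glevel_le (hG : IsClosed (G : Set (UU N))) (B : LieBasis G n) (g : ℝ)
    {F : (Link D l → G) → ℝ} (hF : IsSmooth F) (hFg : GaugeInv F) :
    glevel D l B μ g 0 * (∫ U, F U ^ 2 ∂(Measure.pi fun _ : Link D l => μ)) ≤
      energy B μ g F := by
  set I := ∫ U, F U ^ 2 ∂(Measure.pi fun _ : Link D l => μ) with hI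
  have hI0 : 0 ≤ I := integral_nonneg fun U => sq_nonneg _
  rcases hI0.lt_or_eq with h | h
  · have hs : 0 < Real.sqrt I := Real.sqrt_pos.2 h
    have hle : glevel D l B μ g 0 ≤ energy B μ g F / I := by
      unfold glevel
      apply csInf_le
      · exact ⟨0, fun E hE => glevel_set_nonneg μ hG B g E hE⟩
      · refine ⟨fun _ U => (Real.sqrt I)⁻¹ * F U, fun _ => ⟨(IsSmooth.const _).mul hF, ?_⟩,
          ?_, ?_⟩
        · intro γ U
          change (Real.sqrt I)⁻¹ * F (gauge γ U) = (Real.sqrt I)⁻¹ * F U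
          rw [hFg γ U]
        · intro i j
          have hij : i = j := Fin.ext (by omega)
          rw [if_pos hij]
          have h1 : ∀ U : Link D l → G, (Real.sqrt I)⁻¹ * F U * ((Real.sqrt I)⁻¹ * F U) =
              I⁻¹ * F U ^ 2 := by
            intro U
            have h2 : (Real.sqrt I)⁻¹ * (Real.sqrt I)⁻¹ = I⁻¹ := by
              rw [← mul_inv, Real.mul_self_sqrt hI0]
            calc (Real.sqrt I)⁻¹ * F U * ((Real.sqrt I)⁻¹ * F U)
                = ((Real.sqrt I)⁻¹ * (Real.sqrt I)⁻¹) * F U ^ 2 := by ring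
              _ = I⁻¹ * F U ^ 2 := by rw [h2]
          simp only [h1]
          rw [integral_const_mul, ← hI, inv_mul_cancel₀ h.ne']
        · intro c
          have h1 : (fun U : Link D l → G => ∑ i, c i * ((Real.sqrt I)⁻¹ * F U)) =
              fun U => (c 0 * (Real.sqrt I)⁻¹) * F U := by
            funext U
            rw [Fin.sum_univ_one]
            ring
          rw [h1, energy_cmul μ B g _ hF, Fin.sum_univ_one, mul_pow, inv_pow,
            Real.sq_sqrt hI0]
          apply le_of_eq
          field_simp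
    calc glevel D l B μ g 0 * I ≤ energy B μ g F / I * I :=
          mul_le_mul_of_nonneg_right hle hI0
      _ = energy B μ g F := by field_simp
  · rw [← h, mul_zero]
    exact energy_nonneg μ hG B g hF

lemma int3 {X : Type*} [MeasurableSpace X] (P : Measure X) {f k h : X → ℝ} (c d : ℝ)
    (hf : Integrable f P) (hk : Integrable k P) (hh : Integrable h P) :
    (∫ x, f x ∂P) - c * (∫ x, k x ∂P) + d * (∫ x, h x ∂P) =
      ∫ x, (f x - c * k x + d * h x) ∂P := by
  have hkc : Integrable (fun x => c * k x) P := hk.const_mul c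
  have hfk : Integrable (fun x => f x - c * k x) P := hf.sub hkc
  have hhd : Integrable (fun x => d * h x) P := hh.const_mul d
  rw [integral_add hfk hhd, integral_sub hf hkc, integral_const_mul, integral_const_mul]

/-- The form minus its infimum: Cauchy-Schwarz. -/
lemma form_le (hG : IsClosed (G : Set (UU N))) (B : LieBasis G n) (g : ℝ)
    {F w : (Link D l → G) → ℝ} (hF : IsSmooth F) (hFg : GaugeInv F) (hw : IsSmooth w)
    (hwg : GaugeInv w) (t : ℝ) (ht : 0 < t) (q1 q3 : ℝ)
    (h1 : energy B μ g F - glevel D l B μ g 0 *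
      (∫ U, F U ^ 2 ∂(Measure.pi fun _ : Link D l => μ)) ≤ q1)
    (h3 : energy B μ g w - glevel D l B μ g 0 *
      (∫ U, w U ^ 2 ∂(Measure.pi fun _ : Link D l => μ)) ≤ q3) :
    (∫ U, den2 B g F w U ∂(Measure.pi fun _ : Link D l => μ)) - glevel D l B μ g 0 *
      (∫ U, F U * w U ∂(Measure.pi fun _ : Link D l => μ)) ≤ (q1 / t + t * q3) / 2 := by
  have hsm : IsSmooth (fun U => F U + (-t) * w U) := hF.add ((IsSmooth.const (-t)).mul hw)
  have hgi : GaugeInv (fun U => F U + (-t) * w U) := by
    intro γ U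
    change F (gauge γ U) + (-t) * w (gauge γ U) = F U + (-t) * w U
    rw [hFg γ U, hwg γ U]
  have h4 := glevel_le μ hG B g hsm hgi
  have i1 : Integrable (den2 B g F F) (Measure.pi fun _ : Link D l => μ) :=
    integrable_links μ hG (den2_cont B g hF hF)
  have i2 : Integrable (den2 B g F w) (Measure.pi fun _ : Link D l => μ) :=
    integrable_links μ hG (den2_cont B g hF hw)
  have i3 : Integrable (den2 B g w w) (Measure.pi fun _ : Link D l => μ) :=
    integrable_links μ hG (den2_cont B g hw hw)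
  have j1 : Integrable (fun U => F U ^ 2) (Measure.pi fun _ : Link D l => μ) :=
    integrable_links μ hG (hF.continuous.pow 2)
  have j2 : Integrable (fun U => F U * w U) (Measure.pi fun _ : Link D l => μ) :=
    integrable_links μ hG (hF.continuous.mul hw.continuous)
  have j3 : Integrable (fun U => w U ^ 2) (Measure.pi fun _ : Link D l => μ) :=
    integrable_links μ hG (hw.continuous.pow 2)
  have e1 : energy B μ g (fun U => F U + (-t) * w U) =
      energy B μ g F - 2 * t * (∫ U, den2 B g F w U ∂(Measure.pi fun _ : Link D l => μ)) +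
        t ^ 2 * energy B μ g w := by
    rw [energy_eq μ hG B g hsm, energy_eq μ hG B g hF, energy_eq μ hG B g hw,
      int3 _ _ _ i1 i2 i3]
    congr 1
    funext U
    have hd : ∀ e a, dlink B e a (fun U => F U + (-t) * w U) U =
        dlink B e a F U + (-t) * dlink B e a w U := by
      intro e a
      rw [dlink_add B hF ((IsSmooth.const (-t)).mul hw), dlink_const_mul B (-t) hw]
    unfold den2
    simp only [hd]
    have hs : ∑ e : Link D l, ∑ a : Fin n, (dlink B e a F U + (-t) * dlink B e a w U) *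
        (dlink B e a F U + (-t) * dlink B e a w U) =
        (∑ e : Link D l, ∑ a : Fin n, dlink B e a F U * dlink B e a F U) -
        2 * t * (∑ e : Link D l, ∑ a : Fin n, dlink B e a F U * dlink B e a w U) +
        t ^ 2 * (∑ e : Link D l, ∑ a : Fin n, dlink B e a w U * dlink B e a w U) := by
      simp only [Finset.mul_sum, ← Finset.sum_sub_distrib, ← Finset.sum_add_distrib]
      refine Finset.sum_congr rfl fun e _ => Finset.sum_congr rfl fun a _ => ?_
      ring
    rw [hs]
    ring
  have e2 : ∫ U, (F U + (-t) * w U) ^ 2 ∂(Measure.pi fun _ : Link D l => μ) =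
      (∫ U, F U ^ 2 ∂(Measure.pi fun _ : Link D l => μ)) -
      2 * t * (∫ U, F U * w U ∂(Measure.pi fun _ : Link D l => μ)) +
      t ^ 2 * (∫ U, w U ^ 2 ∂(Measure.pi fun _ : Link D l => μ)) := by
    rw [int3 _ _ _ j1 j2 j3]
    congr 1
    funext U
    ring
  rw [e1, e2] at h4
  rw [le_div_iff₀ (by norm_num : (0 : ℝ) < 2), div_add' _ _ _ ht.ne', le_div_iff₀ ht]
  nlinarith [mul_le_mul_of_nonneg_left h3 (sq_nonneg t)]

end integral

/-! ### the weight -/

section weight

/-- Squared gradient of `p ∘ τ`. -/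
def gam (B : LieBasis G n) (p : ℝ → ℝ) (τ : (Link D l → G) → ℝ) (U : Link D l → G) : ℝ :=
  deriv p (τ U) ^ 2 * ∑ e : Link D l, ∑ a : Fin n, dlink B e a τ U ^ 2

variable {p : ℝ → ℝ} {τ F : (Link D l → G) → ℝ}

/-- The function `exp (s p(τ)) F`. -/
def wt (s : ℝ) (p : ℝ → ℝ) (τ F : (Link D l → G) → ℝ) (U : Link D l → G) : ℝ :=
  Real.exp (s * p (τ U)) * F U

lemma wt_smooth (s : ℝ) (hp : ContDiff ℝ ∞ p) (hτ : IsSmooth τ) (hF : IsSmooth F) :
    IsSmooth (wt s p τ F) := by
  have h1 : ContDiff ℝ ∞ (fun x => Real.exp (s * p x)) :=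
    Real.contDiff_exp.comp (contDiff_const.mul hp)
  exact (hτ.comp h1).mul hF

lemma wt_gi (s : ℝ) (hτ : GaugeInv τ) (hF : GaugeInv F) : GaugeInv (wt s p τ F) := by
  intro γ U
  unfold wt
  rw [hτ γ U, hF γ U]

lemma dlink_wt (B : LieBasis G n) (s : ℝ) (hp : ContDiff ℝ ∞ p) (hτ : IsSmooth τ)
    (hF : IsSmooth F) (e : Link D l) (a : Fin n) (U : Link D l → G) :
    dlink B e a (wt s p τ F) U = Real.exp (s * p (τ U)) *
      (dlink B e a F U + s * deriv p (τ U) * dlink B e a τ U * F U) := by
  have hpd : Differentiable ℝ p := hp.differentiable (by simp)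
  have h1 : ContDiff ℝ ∞ (fun x => Real.exp (s * p x)) :=
    Real.contDiff_exp.comp (contDiff_const.mul hp)
  have h2 : Differentiable ℝ (fun x => Real.exp (s * p x)) := h1.differentiable (by simp)
  have h3 : deriv (fun x => Real.exp (s * p x)) (τ U) =
      Real.exp (s * p (τ U)) * (s * deriv p (τ U)) := by
    have h4 : HasDerivAt p (deriv p (τ U)) (τ U) := (hpd _).hasDerivAt
    exact ((h4.const_mul s).exp).deriv
  have h5 := dlink_mul B (hτ.comp h1) hF e a U
  have h6 := dlink_comp B h2 hτ e a U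
  have h7 : (wt s p τ F) = fun U => (fun x => Real.exp (s * p x)) (τ U) * F U := rfl
  rw [h7]
  refine h5.trans ?_
  rw [h6, h3]
  ring

lemma den_v (B : LieBasis G n) (g : ℝ) (hg : 0 < g) (hp : ContDiff ℝ ∞ p) (hτ : IsSmooth τ)
    (hF : IsSmooth F) (U : Link D l → G) :
    den2 B g (wt (1 / g) p τ F) (wt (1 / g) p τ F) U =
      den2 B g F (wt (2 / g) p τ F) U + 1 / 2 * (gam B p τ U * wt (1 / g) p τ F U ^ 2) := by
  have hE : Real.exp (2 / g * p (τ U)) = Real.exp (1 / g * p (τ U)) ^ 2 := by
    rw [← Real.exp_nat_mul]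
    congr 1
    push_cast
    ring
  unfold den2 gam
  simp only [dlink_wt B _ hp hτ hF]
  have hs : ∑ e : Link D l, ∑ a : Fin n, Real.exp (1 / g * p (τ U)) *
        (dlink B e a F U + 1 / g * deriv p (τ U) * dlink B e a τ U * F U) *
        (Real.exp (1 / g * p (τ U)) *
        (dlink B e a F U + 1 / g * deriv p (τ U) * dlink B e a τ U * F U)) =
      (∑ e : Link D l, ∑ a : Fin n, dlink B e a F U * (Real.exp (2 / g * p (τ U)) *
        (dlink B e a F U + 2 / g * deriv p (τ U) * dlink B e a τ U * F U))) +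
      (Real.exp (1 / g * p (τ U)) ^ 2 * F U ^ 2 * (1 / g ^ 2) * deriv p (τ U) ^ 2) *
        ∑ e : Link D l, ∑ a : Fin n, dlink B e a τ U ^ 2 := by
    simp only [Finset.mul_sum, ← Finset.sum_add_distrib]
    refine Finset.sum_congr rfl fun e _ => Finset.sum_congr rfl fun a _ => ?_
    rw [hE]
    field_simp
    ring
  rw [hs]
  generalize (∑ e : Link D l, ∑ a : Fin n, dlink B e a F U * (Real.exp (2 / g * p (τ U)) *
        (dlink B e a F U + 2 / g * deriv p (τ U) * dlink B e a τ U * F U))) = S1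
  generalize (∑ e : Link D l, ∑ a : Fin n, dlink B e a τ U ^ 2) = S2
  unfold wt
  rw [hE]
  field_simp
  ring

lemma den_w (B : LieBasis G n) (g : ℝ) (hg : 0 < g) (hp : ContDiff ℝ ∞ p) (hτ : IsSmooth τ)
    (hF : IsSmooth F) (U : Link D l → G) (c η : ℝ) (hc : p (τ U) ≤ c)
    (hη : gam B p τ U ≤ η / 4) :
    den2 B g (wt (2 / g) p τ F) (wt (2 / g) p τ F) U ≤
      Real.exp (4 * c / g) * (2 * den2 B g F F U + η * F U ^ 2) := by
  set E := Real.exp (2 / g * p (τ U)) with hE
  have hEp : 0 < E := Real.exp_pos _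
  have hE2 : E ^ 2 ≤ Real.exp (4 * c / g) := by
    rw [hE, ← Real.exp_nat_mul]
    apply Real.exp_le_exp.2
    push_cast
    rw [div_mul_eq_mul_div, mul_div_assoc']
    apply div_le_div_of_nonneg_right _ hg.le
    linarith
  have hm := magnetic_nonneg U
  have key : den2 B g (wt (2 / g) p τ F) (wt (2 / g) p τ F) U ≤
      E ^ 2 * (2 * den2 B g F F U + 4 * gam B p τ U * F U ^ 2) := by
    unfold den2 gam
    simp only [dlink_wt B _ hp hτ hF]
    have hs : ∑ e : Link D l, ∑ a : Fin n, Real.exp (2 / g * p (τ U)) *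
        (dlink B e a F U + 2 / g * deriv p (τ U) * dlink B e a τ U * F U) *
        (Real.exp (2 / g * p (τ U)) *
        (dlink B e a F U + 2 / g * deriv p (τ U) * dlink B e a τ U * F U)) ≤
        (2 * E ^ 2) * (∑ e : Link D l, ∑ a : Fin n, dlink B e a F U * dlink B e a F U) +
        (8 * E ^ 2 * F U ^ 2 * (1 / g ^ 2) * deriv p (τ U) ^ 2) *
          ∑ e : Link D l, ∑ a : Fin n, dlink B e a τ U ^ 2 := by
      simp only [Finset.mul_sum, ← Finset.sum_add_distrib]
      refine Finset.sum_le_sum fun e _ => Finset.sum_le_sum fun a _ => ?_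
      rw [← hE]
      have h1 : 0 ≤ (E * (dlink B e a F U - 2 / g * deriv p (τ U) * dlink B e a τ U * F U)) ^ 2 :=
        sq_nonneg _
      have h2 : 8 * E ^ 2 * F U ^ 2 * (1 / g ^ 2) * deriv p (τ U) ^ 2 * dlink B e a τ U ^ 2 =
          2 * E ^ 2 * (2 / g * deriv p (τ U) * dlink B e a τ U * F U) ^ 2 := by
        field_simp
        ring
      rw [h2]
      nlinarith [h1]
    have hg2 : 0 < g ^ 2 / 2 := by positivity
    have h3 := mul_le_mul_of_nonneg_left hs hg2.le
    have h4 : wt (2 / g) p τ F U * wt (2 / g) p τ F U = E ^ 2 * (F U * F U) := by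
      unfold wt
      rw [← hE]
      ring
    rw [h4]
    have h5 : 0 ≤ 1 / g ^ 2 * (magnetic U * (E ^ 2 * (F U * F U))) := by
      have := mul_self_nonneg (F U)
      positivity
    have h6 : g ^ 2 / 2 * ((2 * E ^ 2) * (∑ e : Link D l, ∑ a : Fin n,
        dlink B e a F U * dlink B e a F U) +
        (8 * E ^ 2 * F U ^ 2 * (1 / g ^ 2) * deriv p (τ U) ^ 2) *
          ∑ e : Link D l, ∑ a : Fin n, dlink B e a τ U ^ 2) =
        E ^ 2 * (2 * (g ^ 2 / 2 * ∑ e : Link D l, ∑ a : Fin n,
        dlink B e a F U * dlink B e a F U) + 4 * (deriv p (τ U) ^ 2 *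
          ∑ e : Link D l, ∑ a : Fin n, dlink B e a τ U ^ 2) * F U ^ 2) := by
      field_simp
      ring
    rw [h6] at h3
    have h7 : 1 / g ^ 2 * (magnetic U * (E ^ 2 * (F U * F U))) =
        E ^ 2 * (1 / g ^ 2 * (magnetic U * (F U * F U))) := by ring
    rw [h7] at h5 ⊢
    linarith
  refine key.trans ?_
  have h1 := den2_self_nonneg B g F U
  have h2 : 0 ≤ gam B p τ U := by
    unfold gam
    apply mul_nonneg (sq_nonneg _)
    exact Finset.sum_nonneg fun e _ => Finset.sum_nonneg fun a _ => sq_nonneg _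
  apply mul_le_mul hE2 _ _ (Real.exp_pos _).le
  · have h3 := mul_le_mul_of_nonneg_right hη (sq_nonneg (F U))
    linarith
  · have h3 := sq_nonneg (F U)
    positivity

end weight

/-! ### smooth steps -/

/-- Smooth step: `0` for `x ≤ a`, `1` for `x ≥ b`. -/
def step (a b x : ℝ) : ℝ := Real.smoothTransition ((x - a) / (b - a))

lemma step_smooth (a b : ℝ) : ContDiff ℝ ∞ (step a b) := by
  unfold step
  exact Real.smoothTransition.contDiff.comp ((contDiff_id.sub contDiff_const).div_const _)

lemma step_zero {a b x : ℝ} (hab : a < b) (hx : x ≤ a) : step a b x = 0 := by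
  unfold step
  apply Real.smoothTransition.zero_of_nonpos
  apply div_nonpos_of_nonpos_of_nonneg <;> linarith

lemma step_one {a b x : ℝ} (hab : a < b) (hx : b ≤ x) : step a b x = 1 := by
  unfold step
  apply Real.smoothTransition.one_of_one_le
  rw [le_div_iff₀ (by linarith)]
  linarith

lemma step_nonneg (a b x : ℝ) : 0 ≤ step a b x := Real.smoothTransition.nonneg _
lemma step_le (a b x : ℝ) : step a b x ≤ 1 := Real.smoothTransition.le_one _

lemma deriv_step {a b x : ℝ} (hab : a < b) (hx : x < a) : deriv (step a b) x = 0 := by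
  have h1 : step a b =ᶠ[𝓝 x] fun _ => 0 := by
    filter_upwards [gt_mem_nhds hx] with y hy
    exact step_zero hab (le_of_lt hy)
  rw [h1.deriv_eq]
  exact deriv_const _ _

lemma small_rpow (c η : ℝ) (hη : 0 < η) : ∃ g0 : ℝ, 0 < g0 ∧ ∀ g : ℝ, 0 < g → g < g0 →
    g ^ (2 / 3 : ℝ) * c < η := by
  have h1 : ContinuousAt (fun g : ℝ => g ^ (2 / 3 : ℝ) * c) 0 :=
    (Real.continuousAt_rpow_const 0 _ (Or.inr (by norm_num))).mul continuousAt_const
  have h2 : (fun g : ℝ => g ^ (2 / 3 : ℝ) * c) 0 < η := by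
    change (0 : ℝ) ^ (2 / 3 : ℝ) * c < η
    rw [Real.zero_rpow (by norm_num), zero_mul]
    exact hη
  obtain ⟨r, hr, hr2⟩ := Metric.mem_nhds_iff.1 (h1.eventually (gt_mem_nhds h2))
  refine ⟨r, hr, fun g hg hgr => hr2 ?_⟩
  rw [mem_ball_zero_iff, Real.norm_eq_abs, abs_of_pos hg]
  exact hgr

lemma small_sq (K η : ℝ) (hη : 0 < η) : ∃ g0 : ℝ, 0 < g0 ∧ ∀ g : ℝ, 0 < g → g < g0 →
    K * g ^ 2 < η := by
  have h1 : ContinuousAt (fun g : ℝ => K * g ^ 2) 0 := by fun_prop
  have h2 : (fun g : ℝ => K * g ^ 2) 0 < η := by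
    change K * (0 : ℝ) ^ 2 < η
    simpa using hη
  obtain ⟨r, hr, hr2⟩ := Metric.mem_nhds_iff.1 (h1.eventually (gt_mem_nhds h2))
  refine ⟨r, hr, fun g hg hgr => hr2 ?_⟩
  rw [mem_ball_zero_iff, Real.norm_eq_abs, abs_of_pos hg]
  exact hgr

/-- Job AGM. -/
theorem t_AGM (h1 : S_IMS) (h2 : S_AWAY) (h3 : S_HC) (h4 : S_GUPP) (_ : S_LOC) (_ : S_GLOW)
    (h7 : S_EZ) : S_AGM := by
  intro N n D l _ G hG hconn B _ _ μ _ _ hNC hD hn δ hδ
  have hcG := compactG hG
  have hscG := sctG (G := G)
  obtain ⟨η, g1, hη, hg1, hAW⟩ := h2 N n D l G hG hD B μ (δ / 4) (by positivity)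
  obtain ⟨_, _, _, hτs, hτg, _, _, _, _⟩ := h3 N n D l G hG B
  have hτc : Continuous (tau B : (Link D l → G) → ℝ) := hτs.continuous
  set P : Measure (Link D l → G) := Measure.pi fun _ : Link D l => μ with hP
  -- the weight
  have hab : δ / 2 < δ := by linarith
  have hgc : Continuous (gam B (step (δ / 2) δ) (tau B : (Link D l → G) → ℝ)) := by
    unfold gam
    apply Continuous.mul
    · have h8 : Continuous (deriv (step (δ / 2) δ)) :=
        (step_smooth _ _).continuous_deriv (by simp)
      exact (h8.comp hτc).pow 2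
    · exact continuous_finsetSum _ fun e _ => continuous_finsetSum _ fun a _ =>
        (hτs.dlink B e a).continuous.pow 2
  obtain ⟨M, hM⟩ := (isCompact_range hgc).bddAbove
  have hM2 : ∀ U, gam B (step (δ / 2) δ) (tau B : (Link D l → G) → ℝ) U ≤ M := fun U =>
    hM ⟨U, rfl⟩
  have hM0 : 0 ≤ M := by
    refine le_trans ?_ (hM2 1)
    unfold gam
    apply mul_nonneg (sq_nonneg _)
    exact Finset.sum_nonneg fun e _ => Finset.sum_nonneg fun a _ => sq_nonneg _
  set c0 : ℝ := Real.sqrt (η / (4 * (M + 1))) with hc0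
  have hc0p : 0 < c0 := Real.sqrt_pos.2 (by positivity)
  have hc0s : c0 ^ 2 = η / (4 * (M + 1)) := Real.sq_sqrt (by positivity)
  set p : ℝ → ℝ := fun x => c0 * step (δ / 2) δ x with hp
  have hps : ContDiff ℝ ∞ p := contDiff_const.mul (step_smooth _ _)
  have hgam : ∀ U, gam B p (tau B : (Link D l → G) → ℝ) U =
      c0 ^ 2 * gam B (step (δ / 2) δ) (tau B : (Link D l → G) → ℝ) U := by
    intro U
    unfold gam
    have h8 : deriv p (tau B U) = c0 * deriv (step (δ / 2) δ) (tau B U) := by
      rw [hp]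
      exact deriv_const_mul _ (((step_smooth _ _).differentiable (by simp)) _)
    rw [h8]
    ring
  have hgamη : ∀ U, gam B p (tau B : (Link D l → G) → ℝ) U ≤ η / 4 := by
    intro U
    rw [hgam, hc0s]
    have h8 := hM2 U
    rw [div_mul_eq_mul_div, div_le_iff₀ (by positivity)]
    nlinarith
  have hgam0 : ∀ U, tau B U < δ / 2 → gam B p (tau B : (Link D l → G) → ℝ) U = 0 := by
    intro U hU
    rw [hgam]
    unfold gam
    rw [deriv_step hab hU]
    ring
  have hgamn : ∀ U, 0 ≤ gam B p (tau B : (Link D l → G) → ℝ) U := by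
    intro U
    unfold gam
    apply mul_nonneg (sq_nonneg _)
    exact Finset.sum_nonneg fun e _ => Finset.sum_nonneg fun a _ => sq_nonneg _
  -- localisation
  have hab4 : δ / 4 < δ / 2 := by linarith
  set θ : (Link D l → G) → ℝ := fun U => Real.pi / 2 * step (δ / 4) (δ / 2) (tau B U) with hθ
  have hθs : IsSmooth θ := by
    have h8 : ContDiff ℝ ∞ (fun x => Real.pi / 2 * step (δ / 4) (δ / 2) x) :=
      contDiff_const.mul (step_smooth _ _)
    exact hτs.comp h8
  obtain ⟨hcos, hsin, K, hK, hIMS⟩ := h1 N n D l G hG B μ θ hθs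
  -- upper bound of the lowest level
  obtain ⟨g2, hg2, hUP⟩ := h4 N n D l G hG hconn B μ hNC hD hn 0 1 one_pos
  obtain ⟨g3, hg3, hS3⟩ := small_rpow ((l : ℝ) ^ (-(D : ℝ) / 3) *
    lev (vred B D) (AdS B D) (0 / Nat.card (Subgroup.center G) ^ D) + 1) (η / 4) (by positivity)
  obtain ⟨g4, hg4, hS4⟩ := small_sq K (η / 8) (by positivity)
  refine ⟨2 * c0, 2 / η + 1 / 4, min (min g1 g2) (min g3 g4), by positivity, by positivity,
    lt_min (lt_min hg1 hg2) (lt_min hg3 hg4), ?_⟩
  intro g hg hgs
  have hgg1 : g < g1 := hgs.trans_le ((min_le_left _ _).trans (min_le_left _ _))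
  have hgg2 : g < g2 := hgs.trans_le ((min_le_left _ _).trans (min_le_right _ _))
  have hgg3 : g < g3 := hgs.trans_le ((min_le_right _ _).trans (min_le_left _ _))
  have hgg4 : g < g4 := hgs.trans_le ((min_le_right _ _).trans (min_le_right _ _))
  set E0 : ℝ := glevel D l B μ g 0 with hE0
  have hE0n : 0 ≤ E0 := glevel_nonneg μ hG B g
  have he := h7 N n D l G hG B
  have hE0u : E0 ≤ 1 / 2 * tsq (hess B (fun _ : Link D l => (1 : G))) + η / 4 := by
    have h8 := hUP g hg hgg2
    have h9 := hS3 g hg hgg3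
    rw [he]
    linarith
  have hKg := hS4 g hg hgg4
  set A : ℝ := Real.exp (4 * c0 / g) * (2 * (E0 + 1) + η) with hA
  have hAp : 0 < A := by
    rw [hA]
    have := Real.exp_pos (4 * c0 / g)
    positivity
  refine ⟨1 / (A + 1), by positivity, ?_⟩
  intro F hF hFg hF1 hFE
  have hd1 : 1 / (A + 1) ≤ 1 := by
    rw [div_le_one (by positivity)]
    linarith
  set v := wt (1 / g) p (tau B) F with hv
  set w := wt (2 / g) p (tau B) F with hw
  have hvs : IsSmooth v := wt_smooth _ hps hτs hF
  have hws : IsSmooth w := wt_smooth _ hps hτs hF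
  have hvg : GaugeInv v := wt_gi _ hτg hFg
  have hwg : GaugeInv w := wt_gi _ hτg hFg
  have iden : ∀ {F H : (Link D l → G) → ℝ}, IsSmooth F → IsSmooth H →
      Integrable (den2 B g F H) P := fun hF hH => integrable_links μ hG (den2_cont B g hF hH)
  have hv2 : Integrable (fun U => v U ^ 2) P := integrable_links μ hG (hvs.continuous.pow 2)
  have hF2 : Integrable (fun U => F U ^ 2) P := integrable_links μ hG (hF.continuous.pow 2)
  have hgv : Integrable (fun U => gam B p (tau B) U * v U ^ 2) P := by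
    apply integrable_links μ hG
    have h8 : gam B p (tau B : (Link D l → G) → ℝ) =
      fun U => c0 ^ 2 * gam B (step (δ / 2) δ) (tau B : (Link D l → G) → ℝ) U := funext hgam
    rw [h8]
    exact (continuous_const.mul hgc).mul (hvs.continuous.pow 2)
  -- energy of w
  have hwE : energy B μ g w ≤ A := by
    rw [energy_eq μ hG B g hws]
    have h8 : ∫ U, den2 B g w w U ∂P ≤
        ∫ U, Real.exp (4 * c0 / g) * (2 * den2 B g F F U + η * F U ^ 2) ∂P := by
      apply integral_mono (iden hws hws)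
      · exact (((iden hF hF).const_mul 2).add (hF2.const_mul η)).const_mul _
      · intro U
        apply den_w B g hg hps hτs hF U c0 η _ (hgamη U)
        rw [hp]
        have := step_le (δ / 2) δ (tau B U)
        have := hc0p
        change c0 * step (δ / 2) δ (tau B U) ≤ c0
        nlinarith
    refine h8.trans ?_
    rw [integral_const_mul, integral_add ((iden hF hF).const_mul 2) (hF2.const_mul η),
      integral_const_mul, integral_const_mul, hF1, hA]
    apply mul_le_mul_of_nonneg_left _ (Real.exp_pos _).le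
    rw [← energy_eq μ hG B g hF]
    linarith
  -- the form
  have hform := form_le μ hG B g hF hFg hws hwg (1 / (A + 1)) (by positivity) (1 / (A + 1)) A
    (by rw [hF1, mul_one]; linarith)
    (by
      have h8 : 0 ≤ E0 * ∫ U, w U ^ 2 ∂P :=
        mul_nonneg hE0n (integral_nonneg fun U => sq_nonneg _)
      linarith)
  have hform1 : (∫ U, den2 B g F w U ∂P) - E0 * (∫ U, F U * w U ∂P) ≤ 1 := by
    refine hform.trans ?_
    rw [div_self (by positivity : (1 : ℝ) / (A + 1) ≠ 0)]
    have h8 : 1 / (A + 1) * A ≤ 1 := by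
      rw [div_mul_eq_mul_div, one_mul, div_le_one (by positivity)]
      linarith
    linarith
  have hFw : ∀ U, F U * w U = v U ^ 2 := by
    intro U
    rw [hv, hw]
    unfold wt
    have h8 : Real.exp (2 / g * p (tau B U)) = Real.exp (1 / g * p (tau B U)) ^ 2 := by
      rw [← Real.exp_nat_mul]
      congr 1
      push_cast
      ring
    rw [h8]
    ring
  have hvE : energy B μ g v = (∫ U, den2 B g F w U ∂P) +
      1 / 2 * ∫ U, gam B p (tau B) U * v U ^ 2 ∂P := by
    rw [energy_eq μ hG B g hvs, ← integral_const_mul, ← integral_add (iden hF hws)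
      (hgv.const_mul _)]
    congr 1
    funext U
    exact den_v B g hg hps hτs hF U
  simp only [hFw] at hform1
  set V : ℝ := ∫ U, v U ^ 2 ∂P with hV
  -- the region
  set S : Set (Link D l → G) := {U | δ / 2 ≤ tau B U} with hS
  have hSm : MeasurableSet S := (isClosed_le continuous_const hτc).measurableSet
  set X : ℝ := ∫ U in S, v U ^ 2 ∂P with hX
  have hX0 : 0 ≤ X := integral_nonneg fun U => sq_nonneg _
  have hVX : V ≤ 1 + X := by
    have h8 : X + ∫ U in Sᶜ, v U ^ 2 ∂P = V := integral_add_compl hSm hv2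
    have h9 : ∫ U in Sᶜ, v U ^ 2 ∂P = ∫ U in Sᶜ, F U ^ 2 ∂P := by
      apply setIntegral_congr_fun hSm.compl
      intro U hU
      have hU2 : tau B U < δ / 2 := not_le.1 hU
      change v U ^ 2 = F U ^ 2
      rw [hv]
      unfold wt
      have h10 : p (tau B U) = 0 := by
        rw [hp]
        change c0 * step (δ / 2) δ (tau B U) = 0
        rw [step_zero hab hU2.le, mul_zero]
      rw [h10, mul_zero, Real.exp_zero, one_mul]
    have h10 : ∫ U in Sᶜ, F U ^ 2 ∂P ≤ ∫ U, F U ^ 2 ∂P :=
      setIntegral_le_integral hF2 (Eventually.of_forall fun U => sq_nonneg _)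
    rw [hF1] at h10
    linarith
  have hgX : ∫ U, gam B p (tau B) U * v U ^ 2 ∂P ≤ η / 4 * X := by
    have h8 : ∫ U, gam B p (tau B) U * v U ^ 2 ∂P ≤
        ∫ U, S.indicator (fun U => η / 4 * v U ^ 2) U ∂P := by
      apply integral_mono hgv ((hv2.const_mul _).indicator hSm)
      intro U
      by_cases hU : U ∈ S
      · rw [Set.indicator_of_mem hU]
        exact mul_le_mul_of_nonneg_right (hgamη U) (sq_nonneg _)
      · rw [Set.indicator_of_notMem hU]
        have hU2 : tau B U < δ / 2 := not_le.1 hU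
        change gam B p (tau B) U * v U ^ 2 ≤ 0
        rw [hgam0 U hU2, zero_mul]
    rw [integral_indicator hSm, integral_const_mul] at h8
    exact h8
  -- the localisation
  have hIv := hIMS g hg v hvs
  have hcv : IsSmooth (fun U => Real.cos (θ U) * v U) := hcos.mul hvs
  have hsv : IsSmooth (fun U => Real.sin (θ U) * v U) := hsin.mul hvs
  have hθg : ∀ γ U, θ (gauge γ U) = θ U := by
    intro γ U
    rw [hθ]
    change Real.pi / 2 * step (δ / 4) (δ / 2) (tau B (gauge γ U)) = _
    rw [hτg γ U]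
  have hcg : GaugeInv (fun U => Real.cos (θ U) * v U) := by
    intro γ U
    change Real.cos (θ (gauge γ U)) * v (gauge γ U) = _
    rw [hθg, hvg γ U]
  have hlow1 := glevel_le μ hG B g hcv hcg
  have hlow2 := hAW g hg hgg1 (fun U => Real.sin (θ U) * v U) hsv (by
    intro U hU
    by_contra hlt
    apply hU
    have h8 : θ U = 0 := by
      rw [hθ]
      change Real.pi / 2 * step (δ / 4) (δ / 2) (tau B U) = 0
      rw [step_zero hab4 (not_le.1 hlt).le, mul_zero]
    change Real.sin (θ U) * v U = 0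
    rw [h8, Real.sin_zero, zero_mul])
  set Y : ℝ := ∫ U, (Real.sin (θ U) * v U) ^ 2 ∂P with hY
  have hs2 : Integrable (fun U => (Real.sin (θ U) * v U) ^ 2) P :=
    integrable_links μ hG (hsv.continuous.pow 2)
  have hc2 : Integrable (fun U => (Real.cos (θ U) * v U) ^ 2) P :=
    integrable_links μ hG (hcv.continuous.pow 2)
  have hcY : ∫ U, (Real.cos (θ U) * v U) ^ 2 ∂P = V - Y := by
    rw [hV, hY, ← integral_sub hv2 hs2]
    congr 1
    funext U
    have := Real.sin_sq_add_cos_sq (θ U)
    have h8 : Real.cos (θ U) ^ 2 = 1 - Real.sin (θ U) ^ 2 := by linarith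
    rw [mul_pow, mul_pow, h8]
    ring
  have hXY : X ≤ Y := by
    have h8 : X = ∫ U in S, (Real.sin (θ U) * v U) ^ 2 ∂P := by
      apply setIntegral_congr_fun hSm
      intro U hU
      have hU2 : δ / 2 ≤ tau B U := hU
      have h9 : θ U = Real.pi / 2 := by
        rw [hθ]
        change Real.pi / 2 * step (δ / 4) (δ / 2) (tau B U) = _
        rw [step_one hab4 hU2, mul_one]
      change v U ^ 2 = (Real.sin (θ U) * v U) ^ 2
      rw [h9, Real.sin_pi_div_two, one_mul]
    rw [h8]
    exact setIntegral_le_integral hs2 (Eventually.of_forall fun U => sq_nonneg _)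
  -- conclusion
  rw [hcY] at hlow1
  have hXC : X ≤ 2 / η + 1 / 4 := by
    have hY0 : 0 ≤ Y := hX0.trans hXY
    have hV0 : 0 ≤ V := integral_nonneg fun U => sq_nonneg _
    have h8 : (1 / 2 * tsq (hess B (fun _ : Link D l => (1 : G))) + η - E0) * Y ≤
        1 + η / 8 * X + K * g ^ 2 * V := by nlinarith
    have h9 : 3 * η / 4 * X ≤
        (1 / 2 * tsq (hess B (fun _ : Link D l => (1 : G))) + η - E0) * Y := by
      apply mul_le_mul _ hXY hX0
      · linarith
      · linarith
    have h10 : K * g ^ 2 * V ≤ η / 8 * (1 + X) := by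
      calc K * g ^ 2 * V ≤ η / 8 * V := mul_le_mul_of_nonneg_right hKg.le hV0
        _ ≤ η / 8 * (1 + X) := mul_le_mul_of_nonneg_left hVX (by positivity)
    have h11 : η / 2 * X ≤ 1 + η / 8 := by linarith
    have h12 : X ≤ (1 + η / 8) / (η / 2) := by
      rw [le_div_iff₀ (by positivity)]
      linarith
    have h13 : (1 + η / 8) / (η / 2) = 2 / η + 1 / 4 := by
      field_simp
      ring
    rw [h13] at h12
    exact h12
  have hS2m : MeasurableSet {U : Link D l → G | δ ≤ tau B U} :=
    (isClosed_le continuous_const hτc).measurableSet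
  have hfin : ∫ U in {U | δ ≤ tau B U}, F U ^ 2 ∂P =
      Real.exp (-(2 * c0) / g) * ∫ U in {U | δ ≤ tau B U}, v U ^ 2 ∂P := by
    rw [← integral_const_mul]
    apply setIntegral_congr_fun hS2m
    intro U hU
    have hU2 : δ ≤ tau B U := hU
    change F U ^ 2 = Real.exp (-(2 * c0) / g) * v U ^ 2
    rw [hv]
    unfold wt
    have h10 : p (tau B U) = c0 := by
      rw [hp]
      change c0 * step (δ / 2) δ (tau B U) = c0
      rw [step_one hab hU2, mul_one]
    rw [h10, mul_pow, ← mul_assoc, ← Real.exp_nat_mul, ← Real.exp_add]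
    have h11 : -(2 * c0) / g + ((2 : ℕ) : ℝ) * (1 / g * c0) = 0 := by
      push_cast
      ring
    rw [h11, Real.exp_zero, one_mul]
  rw [hfin, mul_comm (2 / η + 1 / 4)]
  apply mul_le_mul_of_nonneg_left _ (Real.exp_pos _).le
  refine le_trans ?_ hXC
  apply setIntegral_mono_set hv2.integrableOn (Eventually.of_forall fun U => sq_nonneg _)
  apply HasSubset.Subset.eventuallyLE
  intro U hU
  have hU2 : δ ≤ tau B U := hU
  change δ / 2 ≤ tau B U
  linarith

end

end Pool.Agent.Q84.LU.AGM
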