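import Mathlib
import Pool.Agent.Q77.LU.StmH

/-!
# Project LU: Haar measure near the unit in exponential coordinates, as a measure
-/

set_option autoImplicit false

namespace Pool.Agent.Q84.LU.HAARM

open Pool.Agent.Q77.LU
open MeasureTheory Matrix Set Filter Topology
open scoped ContDiff Matrix.Norms.Frobenius ENNReal NNReal BoundedContinuousFunction

noncomputable section

/-- Haar measure in the exponential chart has a smooth positive density: formula of `S_HAAR1`
for all small radii, with one density. -/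
def S_HAAR2 : Prop := ∀ (N n : ℕ) (G : Subgroup (UU N)), IsClosed (G : Set (UU N)) →
  ∀ (B : LieBasis G n) [MeasurableSpace G] [BorelSpace G] (μ : Measure G)
  [IsProbabilityMeasure μ] [μ.IsHaarMeasure], ∃ (ρ₀ : ℝ) (j : (Fin n → ℝ) → ℝ), 0 < ρ₀ ∧
  ContDiff ℝ ∞ j ∧ (∀ v, 0 < j v) ∧ ∀ ρ : ℝ, 0 < ρ → ρ ≤ ρ₀ → ∀ φ : G → ℝ, Continuous φ →
  (∀ g, φ g ≠ 0 → ∃ v, n2 v < ρ ^ 2 ∧ g = eG B v) →
  ∫ g, φ g ∂μ = ∫ v in {v | n2 v < ρ ^ 2}, φ (eG B v) * j v

variable {N n : ℕ} {G : Subgroup (UU N)}

instance iSC1 : SecondCountableTopology (Mt N) :=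
  inferInstanceAs (SecondCountableTopology (Fin N → Fin N → ℂ))
instance iSC2 : SecondCountableTopology (UU N) :=
  TopologicalSpace.Subtype.secondCountableTopology (α := Mt N) _
instance iSC3 : SecondCountableTopology G :=
  TopologicalSpace.Subtype.secondCountableTopology (α := UU N) _

instance iAH0 {P Q : Type} [Fintype P] [Fintype Q] :
    ((volume : Measure (P → ℝ)).prod (volume : Measure (Q → ℝ))).IsAddHaarMeasure :=
  Measure.prod.instIsAddHaarMeasure _ _
instance iAH1 {P Q : Type} [Fintype P] [Fintype Q] :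
    (volume : Measure ((P → ℝ) × (Q → ℝ))).IsAddHaarMeasure := iAH0
instance iAH2 {n : ℕ} {m : Type} [Fintype m] :
    (volume : Measure (m → Fin n → ℝ)).IsAddHaarMeasure :=
  Measure.pi.isAddHaarMeasure _

lemma mt_inj : Function.Injective (mt : G → Mt N) := by
  intro a b h
  exact Subtype.ext (Subtype.ext h)

lemma mt_ind : IsInducing (mt : G → Mt N) :=
  IsInducing.subtypeVal.comp IsInducing.subtypeVal

lemma mt_cont : Continuous (mt : G → Mt N) := mt_ind.continuous

lemma mt_mul (a b : G) : mt (a * b) = mt a * mt b := rfl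

lemma mt_one : mt (1 : G) = 1 := rfl

lemma mt_inv (a : G) : mt a⁻¹ = (mt a)ᴴ := rfl

lemma mt_eG (h1 : S_EXPG) (hG : IsClosed (G : Set (UU N))) (B : LieBasis G n) (v : Fin n → ℝ) :
    mt (eG B v) = NormedSpace.exp (lin B v) := by
  have h := h1 N n G hG B v
  unfold eG
  rw [dif_pos h]
  exact h.choose_spec

/-- `lin` as a continuous linear map. -/
def linL (B : LieBasis G n) : (Fin n → ℝ) →L[ℝ] Mt N :=
  ∑ a, (ContinuousLinearMap.proj (R := ℝ) (φ := fun _ : Fin n => ℝ) a).smulRight (B.X a)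

lemma linL_apply (B : LieBasis G n) (v : Fin n → ℝ) : linL B v = lin B v := by
  simp [linL, lin]

lemma lin_cont (B : LieBasis G n) : Continuous (lin B) := by
  have : lin B = fun v => linL B v := by
    funext v; rw [linL_apply]
  rw [this]; exact (linL B).continuous

lemma lin_zero (B : LieBasis G n) : lin B 0 = 0 := by
  rw [← linL_apply]; simp

lemma exp_cont : Continuous (NormedSpace.exp : Mt N → Mt N) := NormedSpace.exp_continuous

lemma eG_cont (h1 : S_EXPG) (hG : IsClosed (G : Set (UU N))) (B : LieBasis G n) :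
    Continuous (eG B) := by
  rw [mt_ind.continuous_iff]
  have : (fun g : G => Pool.Agent.Q77.LU.mt g) ∘ eG B = fun v => NormedSpace.exp (lin B v) := by
    funext v; exact mt_eG h1 hG B v
  change Continuous ((fun g : G => Pool.Agent.Q77.LU.mt g) ∘ eG B)
  rw [this]
  exact exp_cont.comp (lin_cont B)

lemma n2_cont {ι : Type} [Fintype ι] : Continuous (n2 : (ι → ℝ) → ℝ) := by
  unfold n2; fun_prop

lemma n2_nonneg {ι : Type} [Fintype ι] (v : ι → ℝ) : 0 ≤ n2 v := by
  unfold n2; positivity

lemma n2_zero {ι : Type} [Fintype ι] : n2 (0 : ι → ℝ) = 0 := by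
  simp [n2]

lemma norm_sq_le_n2 {ι : Type} [Fintype ι] (v : ι → ℝ) : ‖v‖ ^ 2 ≤ n2 v := by
  have h : ‖v‖ ≤ Real.sqrt (n2 v) := by
    rw [pi_norm_le_iff_of_nonneg (Real.sqrt_nonneg _)]
    intro i
    apply Real.le_sqrt_of_sq_le
    rw [Real.norm_eq_abs, sq_abs]
    unfold n2
    exact Finset.single_le_sum (f := fun i => v i ^ 2) (fun i _ => sq_nonneg _) (Finset.mem_univ i)
  calc ‖v‖ ^ 2 ≤ (Real.sqrt (n2 v)) ^ 2 := by
        apply pow_le_pow_left₀ (norm_nonneg _) h
    _ = n2 v := Real.sq_sqrt (n2_nonneg v)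

/-- Data of the exponential chart. -/
structure ExpChart (B : LieBasis G n) (lg : Mt N → (Fin n → ℝ)) (ε r : ℝ) : Prop where
  ε_pos : 0 < ε
  r_pos : 0 < r
  smooth : ContDiff ℝ ∞ lg
  lg_eG : ∀ v, n2 v < r ^ 2 → lg (mt (eG B v)) = v
  near : ∀ v, n2 v < r ^ 2 → ‖mt (eG B v) - 1‖ < ε
  eG_lg : ∀ g : G, ‖mt g - 1‖ < ε → eG B (lg (mt g)) = g
  cont : Continuous (eG B)

/-- Domain of the logarithm in `G`. -/
def dom (lg : Mt N → (Fin n → ℝ)) (ε r : ℝ) : Set G :=
  {g : G | ‖mt g - 1‖ < ε ∧ n2 (lg (mt g)) < r ^ 2}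

/-- Function which is positive exactly on `dom`. -/
def psi (lg : Mt N → (Fin n → ℝ)) (ε r : ℝ) (g : G) : ℝ :=
  max 0 (ε - ‖mt g - 1‖) * max 0 (r ^ 2 - n2 (lg (mt g)))

section chart
variable {B : LieBasis G n} {lg : Mt N → (Fin n → ℝ)} {ε r : ℝ}

lemma psi_cont (hs : Continuous lg) : Continuous (psi lg ε r : G → ℝ) := by
  unfold psi
  have h1 : Continuous (mt : G → Mt N) := mt_cont
  have h2 : Continuous (fun g : G => n2 (lg (mt g))) := n2_cont.comp (hs.comp h1)
  fun_prop

lemma psi_nonneg (g : G) : 0 ≤ psi lg ε r g := by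
  unfold psi; positivity

lemma psi_pos_iff (g : G) : 0 < psi lg ε r g ↔ g ∈ (dom lg ε r : Set G) := by
  unfold psi dom
  rw [Set.mem_ofPred_eq]
  constructor
  · intro h
    have h1 : 0 < max 0 (ε - ‖mt g - 1‖) := by
      rcases (le_max_left 0 (ε - ‖mt g - 1‖)).lt_or_eq with h' | h'
      · exact h'
      · rw [← h', zero_mul] at h; exact absurd h (lt_irrefl _)
    have h2 : 0 < max 0 (r ^ 2 - n2 (lg (mt g))) := by
      rcases (le_max_left 0 (r ^ 2 - n2 (lg (mt g)))).lt_or_eq with h' | h'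
      · exact h'
      · rw [← h', mul_zero] at h; exact absurd h (lt_irrefl _)
    rw [lt_max_iff] at h1 h2
    constructor
    · rcases h1 with h1 | h1
      · exact absurd h1 (lt_irrefl _)
      · linarith
    · rcases h2 with h2 | h2
      · exact absurd h2 (lt_irrefl _)
      · linarith
  · rintro ⟨h1, h2⟩
    apply mul_pos
    · exact lt_max_of_lt_right (by linarith)
    · exact lt_max_of_lt_right (by linarith)

lemma psi_le (g : G) (hε : 0 < ε) : psi lg ε r g ≤ ε * r ^ 2 := by
  unfold psi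
  apply mul_le_mul
  · apply max_le hε.le
    linarith [norm_nonneg (mt g - 1)]
  · apply max_le (sq_nonneg _)
    linarith [n2_nonneg (lg (mt g))]
  · exact le_max_left _ _
  · exact hε.le

lemma dom_open (hs : Continuous lg) : IsOpen (dom lg ε r : Set G) := by
  have h1 : Continuous (mt : G → Mt N) := mt_cont
  have h2 : Continuous (fun g : G => n2 (lg (mt g))) := n2_cont.comp (hs.comp h1)
  apply IsOpen.inter
  · exact isOpen_lt (h1.sub continuous_const).norm continuous_const
  · exact isOpen_lt h2 continuous_const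

lemma ExpChart.mem_dom (hE : ExpChart B lg ε r) {v : Fin n → ℝ} (hv : n2 v < r ^ 2) :
    eG B v ∈ (dom lg ε r : Set G) := by
  refine ⟨hE.near v hv, ?_⟩
  rw [hE.lg_eG v hv]; exact hv

/-- the measure in the coordinates -/
def nuM (j : (Fin n → ℝ) → ℝ) (r : ℝ) : Measure (Fin n → ℝ) :=
  (volume.restrict {v | n2 v < r ^ 2}).withDensity fun v => ENNReal.ofReal (j v)

lemma ball_open {ι : Type} [Fintype ι] (r : ℝ) : IsOpen {v : ι → ℝ | n2 v < r ^ 2} :=
  isOpen_lt n2_cont continuous_const

lemma ball_fin {ι : Type} [Fintype ι] (r : ℝ) (hr : 0 < r) :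
    volume {v : ι → ℝ | n2 v < r ^ 2} < ⊤ := by
  apply (Metric.isBounded_closedBall (x := (0 : ι → ℝ)) (r := r)).subset _ |>.measure_lt_top
  intro v hv
  rw [mem_closedBall_zero_iff]
  have := norm_sq_le_n2 v
  have hv' : n2 v < r ^ 2 := hv
  exact le_of_lt (lt_of_pow_lt_pow_left₀ 2 hr.le (lt_of_le_of_lt this hv'))

lemma ball_int {ι : Type} [Fintype ι] (r : ℝ) (hr : 0 < r) (f : (ι → ℝ) → ℝ)
    (hf : Continuous f) : IntegrableOn f {v : ι → ℝ | n2 v < r ^ 2} := by
  apply (hf.continuousOn.integrableOn_compact (isCompact_closedBall (0 : ι → ℝ) r)).mono_set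
  intro v hv
  rw [mem_closedBall_zero_iff]
  have := norm_sq_le_n2 v
  have hv' : n2 v < r ^ 2 := hv
  exact le_of_lt (lt_of_pow_lt_pow_left₀ 2 hr.le (lt_of_le_of_lt this hv'))

/-- Haar measure near the unit is the image of the measure in the coordinates. -/
lemma haar_chart [MeasurableSpace G] [BorelSpace G] (μ : Measure G)
    [IsProbabilityMeasure μ] (hE : ExpChart B lg ε r) (j : (Fin n → ℝ) → ℝ)
    (hj : Continuous j) (hj0 : ∀ v, 0 < j v)
    (hH : ∀ φ : G → ℝ, Continuous φ → (∀ g, φ g ≠ 0 → ∃ v, n2 v < r ^ 2 ∧ g = eG B v) →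
      ∫ g, φ g ∂μ = ∫ v in {v | n2 v < r ^ 2}, φ (eG B v) * j v) :
    μ.restrict (dom lg ε r) = (nuM j r).map (eG B) := by
  have hlg : Continuous lg := hE.smooth.continuous
  have hψc : Continuous (psi lg ε r : G → ℝ) := psi_cont hlg
  have hψm : Measurable (fun g : G => ENNReal.ofReal (psi lg ε r g)) :=
    ENNReal.measurable_ofReal.comp hψc.measurable
  have heG : Measurable (eG B) := hE.cont.measurable
  have hDm : MeasurableSet (dom lg ε r : Set G) := (dom_open hlg).measurableSet
  have hBm : MeasurableSet {v : Fin n → ℝ | n2 v < r ^ 2} := (ball_open r).measurableSet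
  have hjm : Measurable (fun v => ENNReal.ofReal (j v)) :=
    ENNReal.measurable_ofReal.comp hj.measurable
  -- equality of the measures with density psi
  have key : (μ.restrict (dom lg ε r)).withDensity (fun g => ENNReal.ofReal (psi lg ε r g)) =
      ((nuM j r).map (eG B)).withDensity (fun g => ENNReal.ofReal (psi lg ε r g)) := by
    have : IsFiniteMeasure ((μ.restrict (dom lg ε r)).withDensity
        (fun g => ENNReal.ofReal (psi lg ε r g))) := by
      apply isFiniteMeasure_withDensity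
      apply ne_of_lt
      calc ∫⁻ g, ENNReal.ofReal (psi lg ε r g) ∂(μ.restrict (dom lg ε r))
          ≤ ∫⁻ g, ENNReal.ofReal (ε * r ^ 2) ∂(μ.restrict (dom lg ε r)) := by
            apply lintegral_mono
            intro g
            exact ENNReal.ofReal_le_ofReal (psi_le g hE.ε_pos)
        _ < ⊤ := by
            rw [lintegral_const]
            exact ENNReal.mul_lt_top ENNReal.ofReal_lt_top (measure_lt_top _ _)
    apply ext_of_forall_lintegral_eq_of_IsFiniteMeasure
    intro f
    have hfm : Measurable (fun g => (f g : ℝ≥0∞)) := by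
      exact (ENNReal.continuous_coe.comp f.continuous).measurable
    have hfc : Continuous (fun g => (f g : ℝ)) := NNReal.continuous_coe.comp f.continuous
    set F : G → ℝ≥0∞ := fun g => ENNReal.ofReal (psi lg ε r g) * (f g : ℝ≥0∞) with hF
    have hFm : Measurable F := hψm.mul hfm
    have hcm : Measurable (fun v => F (eG B v)) := hFm.comp heG
    rw [lintegral_withDensity_eq_lintegral_mul _ hψm hfm,
      lintegral_withDensity_eq_lintegral_mul _ hψm hfm]
    change ∫⁻ g in dom lg ε r, F g ∂μ = ∫⁻ g, F g ∂((nuM j r).map (eG B))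
    rw [lintegral_map hFm heG, nuM, lintegral_withDensity_eq_lintegral_mul _ hjm hcm]
    have e1 : ∫⁻ g in dom lg ε r, F g ∂μ
        = ∫⁻ g, ENNReal.ofReal (psi lg ε r g * (f g : ℝ)) ∂μ := by
      rw [← lintegral_indicator hDm]
      apply lintegral_congr
      intro g
      by_cases hg : g ∈ (dom lg ε r : Set G)
      · rw [Set.indicator_of_mem hg, ENNReal.ofReal_mul (psi_nonneg g)]
        simp only [hF, ENNReal.ofReal_coe_nnreal]
      · rw [Set.indicator_of_notMem hg]
        have : psi lg ε r g = 0 := by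
          rcases (psi_nonneg (lg := lg) (ε := ε) (r := r) g).lt_or_eq with h | h
          · exact absurd ((psi_pos_iff g).1 h) hg
          · exact h.symm
        rw [this, zero_mul, ENNReal.ofReal_zero]
    have e2 : ∫⁻ v in {v : Fin n → ℝ | n2 v < r ^ 2}, ((fun v => ENNReal.ofReal (j v)) *
        (fun v => F (eG B v))) v
        = ∫⁻ v in {v : Fin n → ℝ | n2 v < r ^ 2},
          ENNReal.ofReal ((psi lg ε r (eG B v) * (f (eG B v) : ℝ)) * j v) := by
      apply lintegral_congr
      intro v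
      rw [mul_comm (psi lg ε r (eG B v) * (f (eG B v) : ℝ)) (j v), ENNReal.ofReal_mul (hj0 v).le,
        ENNReal.ofReal_mul (psi_nonneg _)]
      simp only [Pi.mul_apply, hF, ENNReal.ofReal_coe_nnreal]
    have hint : Integrable (fun g => psi lg ε r g * (f g : ℝ)) μ := by
      refine Integrable.of_bound (hψc.mul hfc).aestronglyMeasurable
        (ε * r ^ 2 * ((nndist f 0 : ℝ≥0) : ℝ)) ?_
      refine Eventually.of_forall fun g => ?_
      have h1 : f g ≤ nndist f 0 := BoundedContinuousFunction.NNReal.upper_bound f g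
      rw [Real.norm_eq_abs, abs_mul, abs_of_nonneg (psi_nonneg g)]
      have h2 : |((f g : ℝ≥0) : ℝ)| ≤ ((nndist f 0 : ℝ≥0) : ℝ) := by
        rw [abs_of_nonneg (NNReal.coe_nonneg _)]
        exact_mod_cast h1
      exact mul_le_mul (psi_le g hE.ε_pos) h2 (abs_nonneg _) (by have := hE.ε_pos; positivity)
    refine e1.trans (Eq.trans ?_ e2.symm)
    rw [← ofReal_integral_eq_lintegral_ofReal hint
      (Eventually.of_forall fun g => mul_nonneg (psi_nonneg g) (NNReal.coe_nonneg _)),
      ← ofReal_integral_eq_lintegral_ofReal]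
    · congr 1
      apply hH (fun g => psi lg ε r g * (f g : ℝ)) (hψc.mul hfc)
      intro g hg
      have hp : 0 < psi lg ε r g := by
        rcases (psi_nonneg (lg := lg) (ε := ε) (r := r) g).lt_or_eq with h | h
        · exact h
        · rw [← h, zero_mul] at hg; exact absurd rfl hg
      have hgd := (psi_pos_iff g).1 hp
      exact ⟨lg (mt g), hgd.2, (hE.eG_lg g hgd.1).symm⟩
    · apply ball_int r hE.r_pos
      have h3 : Continuous (fun v => psi lg ε r (eG B v)) := hψc.comp hE.cont
      have h4 : Continuous (fun v => ((f (eG B v) : ℝ≥0) : ℝ)) := hfc.comp hE.cont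
      exact (h3.mul h4).mul hj
    · refine Eventually.of_forall fun v => ?_
      exact mul_nonneg (mul_nonneg (psi_nonneg _) (NNReal.coe_nonneg _)) (hj0 v).le
  -- remove the density
  have i1 := withDensity_inv_same (μ := μ.restrict (dom lg ε r)) hψm (by
      rw [ae_restrict_iff' hDm]
      refine Eventually.of_forall fun g hg => ?_
      have := (psi_pos_iff g).2 hg
      exact (ENNReal.ofReal_pos.2 this).ne') (Eventually.of_forall fun g => ENNReal.ofReal_ne_top)
  have i2 := withDensity_inv_same (μ := (nuM j r).map (eG B)) hψm (by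
      rw [ae_map_iff heG.aemeasurable]
      · unfold nuM
        rw [ae_withDensity_iff hjm, ae_restrict_iff' hBm]
        refine Eventually.of_forall fun v hv _ => ?_
        have := (psi_pos_iff _).2 (hE.mem_dom hv)
        exact (ENNReal.ofReal_pos.2 this).ne'
      · exact hψm (measurableSet_singleton (0 : ℝ≥0∞)).compl)
      (Eventually.of_forall fun g => ENNReal.ofReal_ne_top)
  rw [← i1, ← i2, key]

end chart

/-- Existence of the chart. -/
lemma exists_chart (h1 : S_EXPG) (h2 : S_LOGC) (hG : IsClosed (G : Set (UU N)))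
    (B : LieBasis G n) (r0 : ℝ) (hr0 : 0 < r0) :
    ∃ (lg : Mt N → (Fin n → ℝ)) (ε r : ℝ), ExpChart B lg ε r ∧ r ≤ r0 := by
  obtain ⟨lg, ρ, ε, hρ, hε, hs, hl1, hl2⟩ := h2 N n G hG B
  have hc := eG_cont h1 hG B
  -- radius with exp close to one
  have hc2 : Continuous (fun v => ‖mt (eG B v) - 1‖) := by
    have := mt_cont.comp hc
    exact (this.sub continuous_const).norm
  have h0 : ‖mt (eG B (0 : Fin n → ℝ)) - 1‖ < ε := by
    rw [mt_eG h1 hG, lin_zero, NormedSpace.exp_zero, sub_self, norm_zero]; exact hε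
  have hn : {v : Fin n → ℝ | ‖mt (eG B v) - 1‖ < ε} ∈ 𝓝 (0 : Fin n → ℝ) :=
    (isOpen_lt hc2 continuous_const).mem_nhds h0
  obtain ⟨δ, hδ, hδ2⟩ := Metric.mem_nhds_iff.1 hn
  refine ⟨lg, ε, min (min ρ δ) r0, ⟨hε, lt_min (lt_min hρ hδ) hr0, hs, ?_, ?_, ?_, hc⟩,
    min_le_right _ _⟩
  · intro v hv
    rw [mt_eG h1 hG]
    apply hl1
    refine lt_of_lt_of_le hv ?_
    apply pow_le_pow_left₀ (lt_min (lt_min hρ hδ) hr0).le
    exact (min_le_left _ _).trans (min_le_left _ _)
  · intro v hv
    apply hδ2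
    rw [mem_ball_zero_iff]
    have h3 : n2 v < δ ^ 2 := by
      refine lt_of_lt_of_le hv ?_
      apply pow_le_pow_left₀ (lt_min (lt_min hρ hδ) hr0).le
      exact (min_le_left _ _).trans (min_le_right _ _)
    exact lt_of_pow_lt_pow_left₀ 2 hδ.le (lt_of_le_of_lt (norm_sq_le_n2 v) h3)
  · intro g hg
    apply mt_inj
    rw [mt_eG h1 hG]
    exact (hl2 g hg).2.symm

end

end Pool.Agent.Q84.LU.HAARM
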