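import Mathlib
import Pool.Agent.Q241.LU.HAAR1
import Pool.Agent.Q84.LU.HAARM1

/-!
# Project LU: Haar measure in the exponential chart, for all small radii

The proof of `haar_density2` is that of `haar_density` (helper241), with the bound of the radius
in the conclusion.
-/

set_option autoImplicit false

namespace Pool.Agent.Q84.LU

open MeasureTheory Matrix Set Filter Topology
open scoped ContDiff Matrix.Norms.Frobenius
open Pool.Agent.Q77.LU Pool.Agent.Q241.LU

noncomputable section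

section
variable {G A : Type} [Group G] [TopologicalSpace G] [NormedRing A] [NormedAlgebra ℝ A] {n : ℕ}
  [IsTopologicalGroup G] [CompactSpace G] [T2Space G] [MeasurableSpace G] [BorelSpace G]

theorem haar_density2 (μ : Measure G) [IsProbabilityMeasure μ] [μ.IsHaarMeasure]
    (L : LD G A n) : ∃ (ρ : ℝ) (j : (Fin n → ℝ) → ℝ), 0 < ρ ∧ ρ ≤ L.R ∧ ContDiff ℝ ∞ j ∧
    (∀ v, 0 < j v) ∧ ∀ φ : G → ℝ, Continuous φ →
    (∀ g, φ g ≠ 0 → ∃ v, n2 v < ρ ^ 2 ∧ g = L.e v) →
    ∫ g, φ g ∂μ = ∫ v in {v | n2 v < ρ ^ 2}, φ (L.e v) * j v := by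
  have hri : μ.IsMulRightInvariant := right_inv μ
  obtain ⟨j, ra, rb, hra, hab, hbR, hj, hjpos, h1, h2⟩ := L.exists_j
  have hrb : 0 < rb := hra.trans_le hab
  have hm : Continuous (fun p : (Fin n → ℝ) × (Fin n → ℝ) => L.m p.1 p.2) :=
    L.m_smooth.continuous
  have hm0 : L.m 0 0 = 0 := L.m_zero_right (by rw [n2_zero]; exact pow_pos L.R_pos 2)
  obtain ⟨r5, hr5, hr5'⟩ := exists_U2 (S := {p | n2 (L.m p.1 p.2) < ra ^ 2}) (by
    refine (isOpen_lt (n2_cont.comp hm) continuous_const).mem_nhds ?_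
    show n2 (L.m 0 0) < ra ^ 2
    rw [hm0, n2_zero]; positivity)
  set rd := min r5 ra with hrd
  have hrdp : 0 < rd := lt_min hr5 hra
  have hda : rd ≤ ra := min_le_right _ _
  have hd5 : rd ≤ r5 := min_le_left _ _
  -- the elements of the small neighbourhood
  have key : ∀ (k : G) (u w : Fin n → ℝ), n2 u < rd ^ 2 → n2 w < rd ^ 2 →
      k * L.e w = L.e u → ∃ h, n2 h < ra ^ 2 ∧ k = L.e h := by
    intro k u w hu hw hk
    have hw' : n2 (-w) < rd ^ 2 := by rw [n2_neg]; exact hw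
    refine ⟨L.m u (-w), hr5' u (-w) (U_mono hrdp hd5 hu) (U_mono hrdp hd5 hw'), ?_⟩
    rw [(h1 u (-w) (U_mono hrdp (hda.trans hab) hu) (U_mono hrdp (hda.trans hab) hw')).1,
      L.e_neg, ← hk]
    group
  -- the test function
  obtain ⟨δ, hδ, hδ'⟩ : ∃ δ : ℝ, 0 < δ ∧ ∀ g : G, ‖L.mt g - 1‖ < δ →
      ∃ v, n2 v < rd ^ 2 ∧ g = L.e v := by
    have hlg0 : L.lg 1 = 0 := by
      rw [← L.X_zero]
      exact L.lg_X 0 (by rw [n2_zero]; exact pow_pos L.R_pos 2)
    have h3 : ContinuousAt (fun a => n2 (L.lg a)) 1 :=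
      (n2_cont.comp L.lg_smooth.continuous).continuousAt
    have h4 : n2 (L.lg 1) < rd ^ 2 := by rw [hlg0, n2_zero]; positivity
    obtain ⟨δ, hδ, h5⟩ := Metric.mem_nhds_iff.1 (h3.eventually (gt_mem_nhds h4))
    refine ⟨min δ L.ε, lt_min hδ L.ε_pos, fun g hg => ?_⟩
    refine ⟨L.lg (L.mt g), ?_, (L.loc g (hg.trans_le (min_le_right _ _))).2.symm⟩
    have h6 : L.mt g ∈ Metric.ball (1 : A) δ := by
      rw [mem_ball_iff_norm]
      exact hg.trans_le (min_le_left _ _)
    exact h5 h6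
  set χ : G → ℝ := fun g => max 0 (δ - ‖L.mt g - 1‖) with hχ
  have hχc : Continuous χ :=
    continuous_const.max (continuous_const.sub (L.mt_cont.sub continuous_const).norm)
  have hχ0 : ∀ g, 0 ≤ χ g := fun g => le_max_left _ _
  have hχs : ∀ g, χ g ≠ 0 → ∃ v, n2 v < rd ^ 2 ∧ g = L.e v := by
    intro g hg
    refine hδ' g ?_
    by_contra h3
    exact hg (max_eq_left (by linarith))
  have hmt1 : L.mt 1 = 1 := by rw [← L.e_zero, L.mt_e, L.X_zero]
  have hχ1 : 0 < χ 1 := by
    show 0 < max 0 (δ - ‖L.mt 1 - 1‖)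
    rw [hmt1, sub_self, norm_zero, sub_zero]
    exact lt_max_of_lt_right hδ
  -- the constants
  set c1 : ℝ := ∫ k, χ k⁻¹ ∂μ with hc1
  set c2 : ℝ := ∫ v in {v | n2 v < rb ^ 2}, χ (L.e v) * j v with hc2
  have hc1p : 0 < c1 := by
    have h3 : Continuous fun k : G => χ k⁻¹ := hχc.comp continuous_inv
    refine h3.integral_pos_of_hasCompactSupport_nonneg_nonzero
      (HasCompactSupport.of_compactSpace _) (fun k => hχ0 _) (x := 1) ?_
    rw [inv_one]
    exact hχ1.ne'
  have hc2p : 0 < c2 := by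
    have h3 : Continuous fun v => χ (L.e v) * j v := (hχc.comp L.e_cont).mul hj.continuous
    have h4 : IntegrableOn (fun v => χ (L.e v) * j v) {v | n2 v < rb ^ 2} := by
      have h5 : IntegrableOn (fun v => χ (L.e v) * j v) (Metric.closedBall (0 : Fin n → ℝ) rb) :=
        h3.continuousOn.integrableOn_compact (isCompact_closedBall 0 rb)
      refine h5.mono_set ?_
      intro v hv
      rw [mem_closedBall_zero_iff]
      exact (norm_lt_of_n2 hrb hv).le
    rw [hc2, setIntegral_pos_iff_support_of_nonneg_ae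
      (Eventually.of_forall fun v => mul_nonneg (hχ0 _) (hjpos v).le) h4]
    have h5 : IsOpen (Function.support (fun v => χ (L.e v) * j v) ∩ {v | n2 v < rb ^ 2}) :=
      h3.isOpen_support.inter (isOpen_U rb)
    refine h5.measure_pos _ ⟨0, ?_, ?_⟩
    · show χ (L.e 0) * j 0 ≠ 0
      rw [L.e_zero]
      exact mul_ne_zero hχ1.ne' (hjpos 0).ne'
    · show n2 (0 : Fin n → ℝ) < rb ^ 2
      rw [n2_zero]; positivity
  refine ⟨rd, fun v => c1 / c2 * j v, hrdp, hda.trans (hab.trans hbR), contDiff_const.mul hj,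
    fun v => mul_pos (div_pos hc1p hc2p) (hjpos v), fun φ hφ hφs => ?_⟩
  -- the two integrals
  have hpt : ∀ k : G, ∫ v in {v | n2 v < rb ^ 2}, φ (k * L.e v) * χ (L.e v) * j v =
      ∫ v in {v | n2 v < rb ^ 2}, φ (L.e v) * χ (k⁻¹ * L.e v) * j v := by
    intro k
    by_cases hk : ∃ h, n2 h < ra ^ 2 ∧ k = L.e h
    · obtain ⟨h, hh, rfl⟩ := hk
      have h3 := L.inv_loc hra hab hbR h1 h2 hh (fun g => φ g * χ ((L.e h)⁻¹ * g)) (by
        intro g hg
        obtain ⟨v, hv, hv2⟩ := hφs g (left_ne_zero_of_mul hg)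
        exact ⟨v, U_mono hrdp hda hv, hv2⟩)
      simp only [inv_mul_cancel_left] at h3
      exact h3
    · have h3 : ∀ v, φ (k * L.e v) * χ (L.e v) * j v = 0 := by
        intro v
        by_contra hne
        obtain ⟨u, hu, hu2⟩ := hφs _ (left_ne_zero_of_mul (left_ne_zero_of_mul hne))
        obtain ⟨w, hw, hw2⟩ := hχs _ (right_ne_zero_of_mul (left_ne_zero_of_mul hne))
        rw [hw2] at hu2
        exact hk (key k u w hu hw hu2)
      have h4 : ∀ v, φ (L.e v) * χ (k⁻¹ * L.e v) * j v = 0 := by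
        intro v
        by_contra hne
        obtain ⟨u, hu, hu2⟩ := hφs _ (left_ne_zero_of_mul (left_ne_zero_of_mul hne))
        obtain ⟨w, hw, hw2⟩ := hχs _ (right_ne_zero_of_mul (left_ne_zero_of_mul hne))
        refine hk (key k u w hu hw ?_)
        rw [← hw2, ← hu2]
        group
      simp only [h3, h4]
  have hs1 := swap_int μ rb hrb (fun k v => φ (k * L.e v) * χ (L.e v) * j v) (by
    refine ((hφ.comp (continuous_fst.mul (L.e_cont.comp continuous_snd))).mul
      (hχc.comp (L.e_cont.comp continuous_snd))).mul (hj.continuous.comp continuous_snd))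
  have hs2 := swap_int μ rb hrb (fun k v => φ (L.e v) * χ (k⁻¹ * L.e v) * j v) (by
    refine ((hφ.comp (L.e_cont.comp continuous_snd)).mul
      (hχc.comp (continuous_fst.inv.mul (L.e_cont.comp continuous_snd)))).mul
      (hj.continuous.comp continuous_snd))
  have e1 : ∀ v, ∫ k, φ (k * L.e v) * χ (L.e v) * j v ∂μ = (∫ k, φ k ∂μ) * (χ (L.e v) * j v) := by
    intro v
    simp only [mul_assoc]
    rw [integral_mul_const, integral_mul_right_eq_self (fun k => φ k) (L.e v)]
  have e2 : ∀ v, ∫ k, φ (L.e v) * χ (k⁻¹ * L.e v) * j v ∂μ = c1 * (φ (L.e v) * j v) := by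
    intro v
    have h3 : ∀ k, φ (L.e v) * χ (k⁻¹ * L.e v) * j v = χ (k⁻¹ * L.e v) * (φ (L.e v) * j v) := by
      intro k; ring
    simp only [h3]
    rw [integral_mul_const]
    congr 1
    rw [← integral_mul_left_eq_self (fun k => χ (k⁻¹ * L.e v)) (L.e v)]
    simp only [_root_.mul_inv_rev, inv_mul_cancel_right]
    rfl
  have htot : (∫ k, φ k ∂μ) * c2 = c1 * ∫ v in {v | n2 v < rb ^ 2}, φ (L.e v) * j v := by
    have h3 : ∫ k, (∫ v in {v | n2 v < rb ^ 2}, φ (k * L.e v) * χ (L.e v) * j v) ∂μ =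
        ∫ k, (∫ v in {v | n2 v < rb ^ 2}, φ (L.e v) * χ (k⁻¹ * L.e v) * j v) ∂μ :=
      integral_congr_ae (Eventually.of_forall hpt)
    rw [hs1, hs2] at h3
    simp only [e1, e2] at h3
    rw [integral_const_mul, integral_const_mul] at h3
    exact h3
  have hred : ∫ v in {v | n2 v < rb ^ 2}, φ (L.e v) * j v =
      ∫ v in {v | n2 v < rd ^ 2}, φ (L.e v) * j v := by
    refine setIntegral_eq_of_subset_of_forall_sdiff_eq_zero (isOpen_U rb).measurableSet
      (fun u (hu : n2 u < rd ^ 2) => (U_mono hrdp (hda.trans hab) hu : n2 u < rb ^ 2)) ?_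
    rintro v ⟨hv, hv2⟩
    by_contra hne
    obtain ⟨u, hu, hu2⟩ := hφs _ (left_ne_zero_of_mul hne)
    apply hv2
    show n2 v < rd ^ 2
    rw [L.e_inj (U_mono hrb hbR hv) (U_mono hrdp (hda.trans (hab.trans hbR)) hu) hu2]
    exact hu
  rw [hred] at htot
  have h3 : ∫ v in {v | n2 v < rd ^ 2}, φ (L.e v) * (c1 / c2 * j v) =
      c1 / c2 * ∫ v in {v | n2 v < rd ^ 2}, φ (L.e v) * j v := by
    rw [← integral_const_mul]
    congr 1
    ext v
    ring
  rw [h3, div_mul_eq_mul_div, ← htot]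
  field_simp

end

/-- The formula of `S_HAAR1` for all small radii. -/
theorem t_HAAR2 (h1 : S_EXPG) (h2 : S_LOGC) : HAARM.S_HAAR2 := by
  intro N n G hG B _ _ μ _ _
  obtain ⟨lg, ρ, ε, hρ, hε, hlg, h3, h4⟩ := h2 N n G hG B
  have : CompactSpace (UU N) := by
    have h5 : IsCompact (Set.pi Set.univ fun _ : Fin N => Set.pi Set.univ fun _ : Fin N =>
        Metric.closedBall (0 : ℂ) 1) :=
      isCompact_univ_pi fun _ => isCompact_univ_pi fun _ => isCompact_closedBall _ _
    have h6 : IsCompact (UU N : Set (Mt N)) := by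
      refine IsCompact.of_isClosed_subset h5 ?_ ?_
      · have h2 : (UU N : Set (Mt N)) = {A | A * star A = 1} := by
          ext A
          exact Matrix.mem_unitaryGroup_iff
        rw [h2]
        exact isClosed_eq (continuous_id.mul continuous_star) continuous_const
      · intro A hA i _ j _
        rw [mem_closedBall_zero_iff]
        exact entry_norm_bound_of_unitary hA i j
    exact isCompact_iff_compactSpace.1 h6
  have : CompactSpace G := by
    have h5 : IsCompact (G : Set (UU N)) := hG.isCompact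
    exact isCompact_iff_compactSpace.1 h5
  let L : LD G (Mt N) n :=
    { mt := mt
      mt_mul := mt_mulG
      mt_cont := mt_contG
      X := fun v => NormedSpace.exp (lin B v)
      X_smooth := exp_smooth.comp (lin_smooth B)
      X_zero := by rw [lin_zero, NormedSpace.exp_zero]
      e := eG B
      mt_e := mt_eG h1 hG B
      e_cont := eG_cont h1 hG B
      e_zero := eG_zero h1 hG B
      e_neg := eG_neg h1 hG B
      lg := lg
      lg_smooth := hlg
      R := ρ
      ε := ε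
      R_pos := hρ
      ε_pos := hε
      lg_X := h3
      loc := by
        intro g hg
        obtain ⟨h5, h6⟩ := h4 g hg
        refine ⟨h5, mt_inj ?_⟩
        rw [mt_eG h1 hG, ← h6] }
  obtain ⟨ρ1, j, hρ1, hρR, hj, hj0, hH⟩ := haar_density2 μ L
  refine ⟨ρ1, j, hρ1, hj, hj0, fun r hr hrρ φ hφ hφs => ?_⟩
  have hsub : ∀ v : Fin n → ℝ, n2 v < r ^ 2 → n2 v < ρ1 ^ 2 := fun v hv =>
    lt_of_lt_of_le hv (pow_le_pow_left₀ hr.le hrρ 2)
  have e1 := hH φ hφ (fun g hg => by
    obtain ⟨v, hv, hgv⟩ := hφs g hg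
    exact ⟨v, hsub v hv, hgv⟩)
  refine e1.trans ?_
  refine setIntegral_eq_of_subset_of_forall_sdiff_eq_zero (isOpen_U ρ1).measurableSet
      (fun u (hu : n2 u < r ^ 2) => (hsub u hu : n2 u < ρ1 ^ 2)) ?_
  rintro v ⟨hv, hv2⟩
  by_contra hne
  obtain ⟨u, hu, hu2⟩ := hφs _ (left_ne_zero_of_mul hne)
  apply hv2
  change n2 v < r ^ 2
  rw [L.e_inj (U_mono hρ1 hρR hv) (U_mono hr (hrρ.trans hρR) hu) hu2]
  exact hu

end

end Pool.Agent.Q84.LU
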