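import Mathlib
import Pool.Agent.Q84.LU.HAARM1

/-!
# Project LU: change of variables for maps to powers of the group (job HAARM)
-/

set_option autoImplicit false

namespace Pool.Agent.Q84.LU.HAARM

open Pool.Agent.Q77.LU
open MeasureTheory Matrix Set Filter Topology
open scoped ContDiff Matrix.Norms.Frobenius ENNReal NNReal BoundedContinuousFunction

noncomputable section

variable {N n : ℕ} {G : Subgroup (UU N)}

lemma nuM_fin (j : (Fin n → ℝ) → ℝ) (hj : Continuous j) (r : ℝ) (hr : 0 < r) :
    IsFiniteMeasure (nuM j r) := by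
  unfold nuM
  apply isFiniteMeasure_withDensity_ofReal
  exact (ball_int r hr j hj).2

/-- the product measure in the coordinates -/
lemma pi_nuM {m : Type} [Fintype m] (j : (Fin n → ℝ) → ℝ) (hj : Continuous j)
    (hj0 : ∀ v, 0 < j v) (r : ℝ) (hr : 0 < r) :
    Measure.pi (fun _ : m => nuM j r) =
      (volume.restrict {w : m → Fin n → ℝ | ∀ e, n2 (w e) < r ^ 2}).withDensity
        (fun w => ENNReal.ofReal (∏ e, j (w e))) := by
  have hfin := nuM_fin j hj r hr
  have hBm : MeasurableSet {v : Fin n → ℝ | n2 v < r ^ 2} := (ball_open r).measurableSet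
  apply Measure.pi_eq
  intro s hs
  have hsm : MeasurableSet (Set.univ.pi s) := MeasurableSet.univ_pi hs
  have hset : {w : m → Fin n → ℝ | ∀ e, n2 (w e) < r ^ 2} =
      Set.univ.pi (fun _ : m => {v : Fin n → ℝ | n2 v < r ^ 2}) := by
    ext w; simp
  rw [withDensity_apply _ hsm, Measure.restrict_restrict hsm, hset, ← Set.pi_inter_distrib,
    volume_pi, Measure.restrict_pi_pi]
  have hint : ∀ e : m, Integrable j (volume.restrict (s e ∩ {v : Fin n → ℝ | n2 v < r ^ 2})) := by
    intro e
    exact (ball_int r hr j hj).mono_set Set.inter_subset_right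
  have hint2 : Integrable (fun w : m → Fin n → ℝ => ∏ e, j (w e))
      (Measure.pi fun e => volume.restrict (s e ∩ {v : Fin n → ℝ | n2 v < r ^ 2})) :=
    Integrable.fintype_prod (f := fun _ => j) hint
  rw [← ofReal_integral_eq_lintegral_ofReal hint2
    (Eventually.of_forall fun w => Finset.prod_nonneg fun e _ => (hj0 _).le),
    integral_fintype_prod_eq_prod (fun _ => j), ENNReal.ofReal_prod_of_nonneg
      (fun e _ => integral_nonneg fun v => (hj0 v).le)]
  apply Finset.prod_congr rfl
  intro e _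
  rw [nuM, withDensity_apply _ (hs e), Measure.restrict_restrict (hs e),
    ofReal_integral_eq_lintegral_ofReal (hint e) (Eventually.of_forall fun v => (hj0 v).le)]

/-- Integrals over small sets in the powers of the group, in coordinates. -/
lemma pullback {B : LieBasis G n} {lg : Mt N → (Fin n → ℝ)} {ε r : ℝ}
    [MeasurableSpace G] [BorelSpace G] (μ : Measure G) [IsProbabilityMeasure μ]
    (hE : ExpChart B lg ε r) (j : (Fin n → ℝ) → ℝ) (hj : Continuous j) (hj0 : ∀ v, 0 < j v)
    (hμ : μ.restrict (dom lg ε r) = (nuM j r).map (eG B))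
    {m : Type} [Fintype m] (T : Set (m → G)) (hT : MeasurableSet T)
    (hTd : ∀ V ∈ T, ∀ e, V e ∈ (dom lg ε r : Set G)) (Ψ : (m → G) → ℝ) (hΨ : Continuous Ψ) :
    ∫ V in T, Ψ V ∂(Measure.pi fun _ : m => μ) =
      ∫ w in {w : m → Fin n → ℝ | (∀ e, n2 (w e) < r ^ 2) ∧ (fun e => eG B (w e)) ∈ T},
        (∏ e, j (w e)) * Ψ (fun e => eG B (w e)) := by
  have hfin := nuM_fin j hj r hE.r_pos
  have heG : Measurable (eG B) := hE.cont.measurable
  have hEc : Continuous (fun (w : m → Fin n → ℝ) (e : m) => eG B (w e)) :=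
    continuous_pi fun e => hE.cont.comp (continuous_apply e)
  have hEm : Measurable (fun (w : m → Fin n → ℝ) (e : m) => eG B (w e)) := hEc.measurable
  have hsub : T ⊆ Set.univ.pi (fun _ : m => (dom lg ε r : Set G)) := by
    intro V hV e _
    exact hTd V hV e
  have e1 : (Measure.pi fun _ : m => μ).restrict T =
      ((Measure.pi fun _ : m => μ).restrict
        (Set.univ.pi (fun _ : m => (dom lg ε r : Set G)))).restrict T := by
    rw [Measure.restrict_restrict hT, Set.inter_eq_left.2 hsub]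
  have : IsFiniteMeasure ((nuM j r).map (eG B)) := Measure.isFiniteMeasure_map _ _
  have e2 : (Measure.pi fun _ : m => μ).restrict
        (Set.univ.pi (fun _ : m => (dom lg ε r : Set G))) =
      (Measure.pi fun _ : m => nuM j r).map (fun (w : m → Fin n → ℝ) (e : m) => eG B (w e)) := by
    rw [Measure.restrict_pi_pi]
    simp_rw [hμ]
    exact (Measure.pi_map_pi (fun _ => heG.aemeasurable)).symm
  have hboxm : MeasurableSet {w : m → Fin n → ℝ | ∀ e, n2 (w e) < r ^ 2} := by
    have : {w : m → Fin n → ℝ | ∀ e, n2 (w e) < r ^ 2} =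
        ⋂ e, {w | n2 (w e) < r ^ 2} := by ext w; simp
    rw [this]
    exact MeasurableSet.iInter fun e =>
      (isOpen_lt (n2_cont.comp (continuous_apply e)) continuous_const).measurableSet
  have hpm : Measurable (fun w : m → Fin n → ℝ => ENNReal.ofReal (∏ e, j (w e))) := by
    apply ENNReal.measurable_ofReal.comp
    have : Continuous (fun w : m → Fin n → ℝ => ∏ e, j (w e)) :=
      continuous_finsetProd _ fun e _ => hj.comp (continuous_apply e)
    exact this.measurable
  rw [e1, e2, setIntegral_map hT hΨ.aestronglyMeasurable hEm.aemeasurable,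
    pi_nuM j hj hj0 r hE.r_pos,
    setIntegral_withDensity_eq_setIntegral_toReal_smul hpm
      (Eventually.of_forall fun w => ENNReal.ofReal_lt_top) _ (hEm hT),
    Measure.restrict_restrict (hEm hT)]
  have hs : (fun (w : m → Fin n → ℝ) (e : m) => eG B (w e)) ⁻¹' T ∩
      {w | ∀ e, n2 (w e) < r ^ 2} =
      {w : m → Fin n → ℝ | (∀ e, n2 (w e) < r ^ 2) ∧ (fun e => eG B (w e)) ∈ T} := by
    ext w
    constructor
    · rintro ⟨h1, h2⟩; exact ⟨h2, h1⟩
    · rintro ⟨h1, h2⟩; exact ⟨h2, h1⟩
  rw [hs]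
  apply integral_congr_ae
  refine Eventually.of_forall fun w => ?_
  simp only [smul_eq_mul]
  rw [ENNReal.toReal_ofReal (Finset.prod_nonneg fun e _ => (hj0 _).le)]

/-- Change of variables between two spaces. -/
lemma cov {P Q m : Type} [Fintype P] [Fintype Q] [Fintype m]
    (L : ((P → ℝ) × (Q → ℝ)) ≃L[ℝ] (m → Fin n → ℝ)) :
    ∃ c : ℝ, 0 < c ∧ ∀ (y : (P → ℝ) × (Q → ℝ) → (m → Fin n → ℝ)), Differentiable ℝ y →
      ∀ S : Set ((P → ℝ) × (Q → ℝ)), MeasurableSet S → Set.InjOn y S →
      ∀ h : (m → Fin n → ℝ) → ℝ, ∫ w in y '' S, h w =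
        ∫ x in S, (c * |((L.symm : (m → Fin n → ℝ) →L[ℝ] _).comp (fderiv ℝ y x)).det|) *
          h (y x) := by
  set μ' : Measure (m → Fin n → ℝ) := (volume : Measure ((P → ℝ) × (Q → ℝ))).map L with hμ'
  have : μ'.IsAddHaarMeasure := ContinuousLinearEquiv.isAddHaarMeasure_map L _
  have hc0 : 0 < μ'.addHaarScalarFactor (volume : Measure (m → Fin n → ℝ)) :=
    Measure.addHaarScalarFactor_pos_of_isAddHaarMeasure _ _
  have hsm : μ' = μ'.addHaarScalarFactor (volume : Measure (m → Fin n → ℝ)) •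
      (volume : Measure (m → Fin n → ℝ)) := Measure.isAddLeftInvariant_eq_smul _ _
  set c : ℝ≥0 := μ'.addHaarScalarFactor (volume : Measure (m → Fin n → ℝ)) with hc
  refine ⟨(c : ℝ)⁻¹, by positivity, ?_⟩
  intro y hy S hS hinj h
  have hvol : (volume : Measure (m → Fin n → ℝ)) = c⁻¹ • μ' := by
    rw [hsm, smul_smul, inv_mul_cancel₀ hc0.ne', one_smul]
  have hcont : Continuous y := hy.continuous
  -- left side
  have e1 : ∫ w in y '' S, h w = (c : ℝ)⁻¹ * ∫ w in y '' S, h w ∂μ' := by
    conv_lhs => rw [hvol]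
    rw [Measure.restrict_smul, integral_smul_nnreal_measure, NNReal.smul_def, smul_eq_mul,
      NNReal.coe_inv]
  have hLe : MeasurableEmbedding (L : (P → ℝ) × (Q → ℝ) → (m → Fin n → ℝ)) :=
    L.toHomeomorph.measurableEmbedding
  have e2 : ∫ w in y '' S, h w ∂μ' = ∫ z in (fun x => L.symm (y x)) '' S, h (L z) := by
    rw [hμ', hLe.setIntegral_map]
    congr 2
    ext z
    simp only [Set.mem_preimage, Set.mem_image]
    constructor
    · rintro ⟨x, hx, hxz⟩
      exact ⟨x, hx, by rw [hxz]; simp⟩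
    · rintro ⟨x, hx, hxz⟩
      exact ⟨x, hx, by rw [← hxz]; simp⟩
  have hder : ∀ x ∈ S, HasFDerivWithinAt (fun x => L.symm (y x))
      ((L.symm : (m → Fin n → ℝ) →L[ℝ] _).comp (fderiv ℝ y x)) S x := by
    intro x _
    exact ((L.symm : (m → Fin n → ℝ) →L[ℝ] ((P → ℝ) × (Q → ℝ))).hasFDerivAt.comp x
      (hy x).hasFDerivAt).hasFDerivWithinAt
  have hinj2 : Set.InjOn (fun x => L.symm (y x)) S := by
    intro a ha b hb hab
    exact hinj ha hb (L.symm.injective hab)
  rw [e1, e2, integral_image_eq_integral_abs_det_fderiv_smul volume hS hder hinj2,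
    ← integral_const_mul]
  apply integral_congr_ae
  refine Eventually.of_forall fun x => ?_
  simp only [smul_eq_mul, ContinuousLinearEquiv.apply_symm_apply]
  ring

/-- the determinant is smooth -/
lemma det_smooth (E : Type) [NormedAddCommGroup E] [NormedSpace ℝ E] [FiniteDimensional ℝ E] :
    ContDiff ℝ ∞ (fun A : E →L[ℝ] E => A.det) := by
  set b := Module.finBasis ℝ E with hb
  have h1 : (fun A : E →L[ℝ] E => A.det) = fun A : E →L[ℝ] E =>
      ∑ σ : Equiv.Perm (Fin (Module.finrank ℝ E)), ((Equiv.Perm.sign σ : ℤ) : ℝ) *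
        ∏ i, b.coord (σ i) (A (b i)) := by
    funext A
    have : A.det = LinearMap.det (A : E →ₗ[ℝ] E) := rfl
    rw [this, ← LinearMap.det_toMatrix b, Matrix.det_apply']
    apply Finset.sum_congr rfl
    intro σ _
    congr 1
    apply Finset.prod_congr rfl
    intro i _
    rw [LinearMap.toMatrix_apply]
    rfl
  rw [h1]
  apply ContDiff.sum
  intro σ _
  apply ContDiff.mul contDiff_const
  apply contDiff_prod
  intro i _
  have h2 : ContDiff ℝ ∞ (fun A : E →L[ℝ] E => A (b i)) :=
    (ContinuousLinearMap.apply ℝ E (b i)).contDiff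
  have h3 : ContDiff ℝ ∞ (fun v : E => b.coord (σ i) v) :=
    (LinearMap.toContinuousLinearMap (b.coord (σ i))).contDiff
  exact h3.comp h2

end

end Pool.Agent.Q84.LU.HAARM
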