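import Mathlib
import Pool.Agent.Q84.LU.HAARM2

/-!
# Project LU: job HAARM

`t_HAARM2 (h1 : S_EXPG) (h2 : S_LOGC) (h3 : S_HAAR2) (h4 : S_INVF) : S_HAARM`, where `S_HAAR2` is the
formula of `S_HAAR1` for all small radii with one density.
-/

set_option autoImplicit false

namespace Pool.Agent.Q84.LU.HAARM

open Pool.Agent.Q77.LU
open MeasureTheory Matrix Set Filter Topology
open scoped ContDiff Matrix.Norms.Frobenius ENNReal NNReal BoundedContinuousFunction

noncomputable section

lemma norm_sq_le_nx {P Q : Type} [Fintype P] [Fintype Q] (x : (P → ℝ) × (Q → ℝ)) :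
    ‖x‖ ^ 2 ≤ nx x := by
  unfold nx
  have h1 := norm_sq_le_n2 x.1
  have h2 := norm_sq_le_n2 x.2
  have h3 := n2_nonneg x.1
  have h4 := n2_nonneg x.2
  rcases le_total ‖x.1‖ ‖x.2‖ with h | h
  · rw [Prod.norm_def, max_eq_right h]; linarith
  · rw [Prod.norm_def, max_eq_left h]; linarith

lemma nx_cont {P Q : Type} [Fintype P] [Fintype Q] :
    Continuous (nx : (P → ℝ) × (Q → ℝ) → ℝ) := by
  unfold nx
  exact (n2_cont.comp continuous_fst).add (n2_cont.comp continuous_snd)

lemma nx_ball {P Q : Type} [Fintype P] [Fintype Q] {x : (P → ℝ) × (Q → ℝ)} {r : ℝ} (hr : 0 < r)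
    (hx : nx x < r ^ 2) : ‖x‖ < r :=
  lt_of_pow_lt_pow_left₀ 2 hr.le (lt_of_le_of_lt (norm_sq_le_nx x) hx)

/-- Change of variables for maps to powers of `G`. -/
theorem t_HAARM2 (h1 : S_EXPG) (h2 : S_LOGC) (h3 : S_HAAR2) (h4 : S_INVF) : S_HAARM := by
  classical
  intro N n G hG B _ _ μ _ _ P Q m _ _ _ hcard Θ hΘ hder
  obtain ⟨ρ₀, j, hρ₀, hj, hj0, hH⟩ := h3 N n G hG B μ
  obtain ⟨lg, ε, r, hE, hrρ⟩ := exists_chart h1 h2 hG B ρ₀ hρ₀
  have hr := hE.r_pos
  have hμ : μ.restrict (dom lg ε r) = (nuM j r).map (eG B) :=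
    haar_chart μ hE j hj.continuous hj0 (hH r hr hrρ)
  obtain ⟨rI, hrI, Ξ, _, hΞ, hopen⟩ := h4 N n G hG B P Q m hcard Θ hΘ hder
  -- left translation to the unit
  set W : (P → ℝ) × (Q → ℝ) → (m → G) := fun x e => (Θ 0 e)⁻¹ * Θ x e with hW
  have hWmt : ∀ x e, mt (W x e) = (mt (Θ 0 e))ᴴ * mt (Θ x e) := fun x e => rfl
  have hΘe : ∀ e, ContDiff ℝ ∞ (fun x => mt (Θ x e)) := fun e => (contDiff_pi.1 hΘ) e
  have hWs : ∀ e, ContDiff ℝ ∞ (fun x => mt (W x e)) := by
    intro e
    have h5 : ContDiff ℝ ∞ (fun M : Mt N => (mt (Θ 0 e))ᴴ * M) :=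
      (ContinuousLinearMap.mul ℝ (Mt N) (mt (Θ 0 e))ᴴ).contDiff
    exact h5.comp (hΘe e)
  have hW0 : ∀ e, W 0 e = 1 := fun e => inv_mul_cancel _
  set y : (P → ℝ) × (Q → ℝ) → (m → Fin n → ℝ) := fun x e => lg (mt (W x e)) with hy
  have hys : ContDiff ℝ ∞ y := by
    apply contDiff_pi.2
    intro e
    exact hE.smooth.comp (hWs e)
  have hyd : Differentiable ℝ y := hys.differentiable (by simp)
  -- near zero the point is in the domain of the chart
  have hWc : ∀ e, Continuous (fun x => W x e) := by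
    intro e
    rw [mt_ind.continuous_iff]
    exact (hWs e).continuous
  have hlg1 : lg 1 = 0 := by
    have h5 := hE.lg_eG 0 (by rw [n2_zero]; positivity)
    rwa [mt_eG h1 hG, lin_zero, NormedSpace.exp_zero] at h5
  have h1dom : (1 : G) ∈ (dom lg ε r : Set G) := by
    refine ⟨?_, ?_⟩
    · rw [mt_one, sub_self, norm_zero]; exact hE.ε_pos
    · rw [mt_one, hlg1, n2_zero]; positivity
  have hU : {x | ∀ e, W x e ∈ (dom lg ε r : Set G)} ∈ 𝓝 (0 : (P → ℝ) × (Q → ℝ)) := by
    have : {x | ∀ e, W x e ∈ (dom lg ε r : Set G)} =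
        ⋂ e, (fun x => W x e) ⁻¹' (dom lg ε r : Set G) := by ext x; simp
    rw [this]
    apply (isOpen_iInter_of_finite fun e => (dom_open hE.smooth.continuous).preimage (hWc e)).mem_nhds
    simp only [Set.mem_iInter, Set.mem_preimage]
    intro e
    rw [hW0 e]; exact h1dom
  obtain ⟨δ₁, hδ₁, hδ₁U⟩ := Metric.mem_nhds_iff.1 hU
  -- the derivative at zero is injective
  have hD : ∀ v, fderiv ℝ y 0 v = 0 → v = 0 := by
    intro v hv
    apply hder
    have heq : (fun x (e : m) => mt (Θ x e)) =ᶠ[𝓝 0]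
        fun x (e : m) => mt (Θ 0 e) * NormedSpace.exp (linL B (y x e)) := by
      filter_upwards [hU] with x hx
      funext e
      have h5 : mt (W x e) = NormedSpace.exp (linL B (y x e)) := by
        rw [linL_apply, ← mt_eG h1 hG]
        congr 1
        exact (hE.eG_lg _ (hx e).1).symm
      rw [← h5, ← mt_mul]
      congr 1
      exact (mul_inv_cancel_left _ _).symm
    have hy0 : ∀ e, y 0 e = 0 := by
      intro e
      rw [hy]
      change lg (mt (W 0 e)) = 0
      rw [hW0 e, mt_one, hlg1]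
    have hcomp : ∀ e : m, HasFDerivAt
        (fun x => mt (Θ 0 e) * NormedSpace.exp (linL B (y x e)))
        ((ContinuousLinearMap.mul ℝ (Mt N) (mt (Θ 0 e))).comp
          (((1 : Mt N →L[ℝ] Mt N).comp (linL B)).comp
            ((ContinuousLinearMap.proj (R := ℝ) (φ := fun _ : m => Fin n → ℝ) e).comp
              (fderiv ℝ y 0)))) 0 := by
      intro e
      have a1 : HasFDerivAt (fun x => y x e)
          ((ContinuousLinearMap.proj (R := ℝ) (φ := fun _ : m => Fin n → ℝ) e).comp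
              (fderiv ℝ y 0)) 0 :=
        (ContinuousLinearMap.proj (R := ℝ) (φ := fun _ : m => Fin n → ℝ) e).hasFDerivAt.comp 0
          (hyd 0).hasFDerivAt
      have a2 : HasFDerivAt (NormedSpace.exp : Mt N → Mt N) (1 : Mt N →L[ℝ] Mt N)
          (linL B (y 0 e)) := by
        rw [hy0 e, map_zero]
        exact hasFDerivAt_exp_zero
      have a3 : HasFDerivAt (fun w => NormedSpace.exp (linL B w))
          ((1 : Mt N →L[ℝ] Mt N).comp (linL B)) (y 0 e) :=
        a2.comp (y 0 e) (linL B).hasFDerivAt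
      have a4 := a3.comp 0 a1
      exact (ContinuousLinearMap.mul ℝ (Mt N) (mt (Θ 0 e))).hasFDerivAt.comp 0 a4
    have hF := (hasFDerivAt_pi.2 hcomp).congr_of_eventuallyEq heq
    have h6 := DFunLike.congr_fun hF.fderiv v
    refine h6.trans ?_
    funext e
    have hve : (fderiv ℝ y 0) v e = 0 := by rw [hv]; rfl
    change (mt (Θ 0 e)) * (linL B ((fderiv ℝ y 0) v e)) = 0
    rw [hve, map_zero, mul_zero]
  -- the linear equivalence
  have hfr : Module.finrank ℝ ((P → ℝ) × (Q → ℝ)) = Module.finrank ℝ (m → Fin n → ℝ) := by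
    rw [Module.finrank_prod, Module.finrank_fintype_fun_eq_card,
      Module.finrank_fintype_fun_eq_card, Module.finrank_pi_fintype]
    simp only [Module.finrank_fintype_fun_eq_card, Fintype.card_fin, Finset.sum_const,
      Finset.card_univ, smul_eq_mul]
    rw [hcard, mul_comm]
  have hDinj : Function.Injective (fderiv ℝ y 0 : (P → ℝ) × (Q → ℝ) →ₗ[ℝ] (m → Fin n → ℝ)) := by
    rw [injective_iff_map_eq_zero]
    exact hD
  set L : ((P → ℝ) × (Q → ℝ)) ≃L[ℝ] (m → Fin n → ℝ) :=
    (LinearEquiv.ofInjectiveOfFinrankEq _ hDinj hfr).toContinuousLinearEquiv with hL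
  have hLa : ∀ v, L v = fderiv ℝ y 0 v := fun v => rfl
  obtain ⟨c, hc, hcov⟩ := cov (n := n) L
  -- the Jacobian
  set A : (P → ℝ) × (Q → ℝ) → (((P → ℝ) × (Q → ℝ)) →L[ℝ] ((P → ℝ) × (Q → ℝ))) :=
    fun x => (L.symm : (m → Fin n → ℝ) →L[ℝ] _).comp (fderiv ℝ y x) with hA
  have hfs : ContDiff ℝ ∞ (fun x => fderiv ℝ y x) := hys.fderiv_right (by simp)
  have hAs : ContDiff ℝ ∞ A := by
    have h5 := ((ContinuousLinearMap.compL ℝ ((P → ℝ) × (Q → ℝ)) (m → Fin n → ℝ)
      ((P → ℝ) × (Q → ℝ))) (L.symm : (m → Fin n → ℝ) →L[ℝ] ((P → ℝ) × (Q → ℝ)))).contDiff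
      (n := ∞)
    exact h5.comp hfs
  have hds : ContDiff ℝ ∞ (fun x => (A x).det) := (det_smooth _).comp hAs
  have hA0 : (A 0).det = 1 := by
    have : A 0 = ContinuousLinearMap.id ℝ _ := by
      refine ContinuousLinearMap.ext fun v => ?_
      change L.symm (fderiv ℝ y 0 v) = v
      rw [← hLa]; simp
    rw [this]
    exact LinearMap.det_id
  have hdn : {x | 0 < (A x).det} ∈ 𝓝 (0 : (P → ℝ) × (Q → ℝ)) := by
    apply (isOpen_lt continuous_const hds.continuous).mem_nhds
    change 0 < (A 0).det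
    rw [hA0]; exact one_pos
  obtain ⟨δ₂, hδ₂, hδ₂U⟩ := Metric.mem_nhds_iff.1 hdn
  set δ : ℝ := min δ₁ δ₂ with hδ
  have hδ0 : 0 < δ := lt_min hδ₁ hδ₂
  set J₀ : (P → ℝ) × (Q → ℝ) → ℝ := fun x => c * (A x).det * ∏ e, j (y x e) with hJ₀
  have hJ₀s : ContDiff ℝ ∞ J₀ := by
    apply ContDiff.mul (contDiff_const.mul hds)
    apply contDiff_prod
    intro e _
    exact hj.comp ((contDiff_pi.1 hys) e)
  have hJ₀p : ∀ x, ‖x‖ < δ → 0 < J₀ x := by
    intro x hx
    have h5 : 0 < (A x).det := hδ₂U (by rw [mem_ball_zero_iff]; exact hx.trans_le (min_le_right _ _))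
    have h6 : 0 < ∏ e, j (y x e) := Finset.prod_pos fun e _ => hj0 _
    positivity
  -- cut-off
  let bump : ContDiffBump (0 : (P → ℝ) × (Q → ℝ)) := ⟨δ / 2, δ, by positivity, by linarith⟩
  have hbs : ContDiff ℝ ∞ (fun x => bump x) := bump.contDiff
  refine ⟨min rI (δ / 2), fun x => bump x * J₀ x + (1 - bump x), lt_min hrI (by positivity),
    (hbs.mul hJ₀s).add (contDiff_const.sub hbs), ?_, ?_⟩
  · intro x
    by_cases hx : ‖x‖ < δ
    · have h5 := hJ₀p x hx
      have h6 : 0 ≤ bump x := bump.nonneg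
      have h7 : bump x ≤ 1 := bump.le_one
      change 0 < bump x * J₀ x + (1 - bump x)
      rcases h6.lt_or_eq with h8 | h8
      · have := mul_pos h8 h5
        linarith
      · rw [← h8]; norm_num
    · have h5 : bump x = 0 := by
        apply bump.zero_of_le_dist
        rw [dist_zero_right]
        exact not_lt.1 hx
      change 0 < bump x * J₀ x + (1 - bump x)
      rw [h5]; norm_num
  · intro ρ hρ hρr Φ hΦ
    have hρI : ρ ≤ rI := hρr.trans (min_le_left _ _)
    have hρδ : ρ ≤ δ / 2 := hρr.trans (min_le_right _ _)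
    set S : Set ((P → ℝ) × (Q → ℝ)) := {x | nx x < ρ ^ 2} with hS
    have hSo : IsOpen S := isOpen_lt nx_cont continuous_const
    have hSn : ∀ x ∈ S, ‖x‖ < δ / 2 := fun x hx => (nx_ball hρ hx).trans_le hρδ
    have hSdom : ∀ x ∈ S, ∀ e, W x e ∈ (dom lg ε r : Set G) := by
      intro x hx
      apply hδ₁U
      rw [mem_ball_zero_iff]
      have := hSn x hx
      have h5 : δ ≤ δ₁ := min_le_left _ _
      linarith
    have hSy : ∀ x ∈ S, ∀ e, eG B (y x e) = W x e := fun x hx e =>
      hE.eG_lg _ (hSdom x hx e).1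
    have hΘinj : Set.InjOn Θ S := by
      intro a ha b hb hab
      have ea := hΞ a (lt_of_lt_of_le ha (pow_le_pow_left₀ hρ.le hρI 2))
      have eb := hΞ b (lt_of_lt_of_le hb (pow_le_pow_left₀ hρ.le hρI 2))
      rw [← ea, ← eb, hab]
    have hyinj : Set.InjOn y S := by
      intro a ha b hb hab
      apply hΘinj ha hb
      funext e
      have h5 : W a e = W b e := by
        rw [← hSy a ha e, ← hSy b hb e, hab]
      exact mul_left_cancel h5
    have hopenS := hopen ρ hρ hρI
    -- translation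
    set V₀ : m → G := Θ 0 with hV₀
    set T : Set (m → G) := (fun V => V₀ * V) ⁻¹' (Θ '' S) with hT
    have hmc : Continuous (fun V : m → G => V₀ * V) := continuous_const.mul continuous_id
    have hTo : IsOpen T := hopenS.preimage hmc
    have hTW : ∀ V, V ∈ T ↔ ∃ x ∈ S, W x = V := by
      intro V
      constructor
      · rintro ⟨x, hx, hxV⟩
        refine ⟨x, hx, ?_⟩
        funext e
        change (Θ 0 e)⁻¹ * Θ x e = V e
        rw [hxV]
        exact inv_mul_cancel_left _ _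
      · rintro ⟨x, hx, rfl⟩
        refine ⟨x, hx, ?_⟩
        funext e
        exact (mul_inv_cancel_left _ _).symm
    have hTd : ∀ V ∈ T, ∀ e, V e ∈ (dom lg ε r : Set G) := by
      intro V hV e
      obtain ⟨x, hx, rfl⟩ := (hTW V).1 hV
      exact hSdom x hx e
    have hmp : MeasurePreserving (fun V : m → G => V₀ * V)
        (Measure.pi fun _ : m => μ) (Measure.pi fun _ : m => μ) :=
      measurePreserving_mul_left _ V₀
    have e1 := hmp.setIntegral_preimage_emb (measurableEmbedding_mulLeft V₀) Φ (Θ '' S)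
    rw [← e1, ← hT, pullback μ hE j hj.continuous hj0 hμ T hTo.measurableSet hTd
      (fun V => Φ (V₀ * V)) (hΦ.comp hmc)]
    have hset : {w : m → Fin n → ℝ | (∀ e, n2 (w e) < r ^ 2) ∧ (fun e => eG B (w e)) ∈ T} =
        y '' S := by
      ext w
      constructor
      · rintro ⟨hw, hwT⟩
        obtain ⟨x, hx, hxw⟩ := (hTW _).1 hwT
        refine ⟨x, hx, ?_⟩
        funext e
        have h5 : W x e = eG B (w e) := congrFun hxw e
        change lg (mt (W x e)) = w e
        rw [h5, hE.lg_eG _ (hw e)]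
      · rintro ⟨x, hx, rfl⟩
        refine ⟨fun e => (hSdom x hx e).2, ?_⟩
        rw [hTW]
        exact ⟨x, hx, funext fun e => (hSy x hx e).symm⟩
    rw [hset, hcov y hyd S hSo.measurableSet hyinj]
    apply setIntegral_congr_fun hSo.measurableSet
    intro x hx
    have hb1 : bump x = 1 := by
      apply bump.one_of_mem_closedBall
      rw [mem_closedBall_zero_iff]
      exact (hSn x hx).le
    have hdet : 0 < (A x).det := by
      apply hδ₂U
      rw [mem_ball_zero_iff]
      have := hSn x hx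
      have h5 : δ ≤ δ₂ := min_le_right _ _
      linarith
    have hΦx : (V₀ * fun e => eG B (y x e)) = Θ x := by
      funext e
      change Θ 0 e * eG B (y x e) = Θ x e
      rw [hSy x hx e]
      exact mul_inv_cancel_left _ _
    change (c * |(A x).det|) * ((∏ e, j (y x e)) * Φ (V₀ * fun e => eG B (y x e))) =
      Φ (Θ x) * (bump x * J₀ x + (1 - bump x))
    rw [hΦx, hb1, abs_of_pos hdet]
    simp only [hJ₀]
    ring

end

end Pool.Agent.Q84.LU.HAARM
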