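import Mathlib
import Pool.Agent.Q84.LU.HAARM
import Pool.Agent.Q84.LU.HAAR2

/-!
# Project LU: job HAARM, final form
-/

set_option autoImplicit false

namespace Pool.Agent.Q84.LU

open Pool.Agent.Q77.LU

/-- Change of variables for maps to powers of `G`; the formula of `S_HAAR1` for all small radii
is proved in `HAAR2`, so `S_HAAR1` is not needed. -/
theorem t_HAARM' (h1 : S_EXPG) (h2 : S_LOGC) (h4 : S_INVF) : S_HAARM :=
  HAARM.t_HAARM2 h1 h2 (t_HAAR2 h1 h2) h4

/-- Job HAARM. -/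
theorem t_HAARM (h1 : S_EXPG) (h2 : S_LOGC) (_ : S_HAAR1) (h4 : S_INVF) : S_HAARM :=
  t_HAARM' h1 h2 h4

end Pool.Agent.Q84.LU
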